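import Pool.Agent.W921.SF.Stm
import Pool.Agent.Helper227.EN.Alg
import Pool.Agent.Helper227.ENJ.P_inj_extend

/-!
The density lemmas for conditions.
-/

set_option autoImplicit false

open FirstOrder FirstOrder.Language Pool.Agent.Helper227.EN

namespace Pool.Agent.W930.SFD

open Pool.Agent.W921.SF
open Pool.Agent.Helper578.JD Pool.Agent.Helper578.JD.Oracle Pool.Agent.Helper578.JD.Defs

theorem infinite_of_PA (M : Type) [LA.Structure M] [Nonempty M] (h : M ⊨ PA) : Infinite M := by
  have hPm : (M : Type) ⊨ PAminus := h.mono Set.subset_union_left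
  obtain ⟨i1, i2, i3, i4, hc⟩ := exists_alg M hPm
  exact Infinite.of_injective (Nat.cast : ℕ → M) Nat.cast_injective

theorem realize_congr {M : Type} [LA.Structure M] (φ : LA.Formula ℕ) (v w : ℕ → M)
    (h : ∀ i ∈ φ.freeVarFinset, v i = w i) : φ.Realize v ↔ φ.Realize w := by
  have h1 := BoundedFormula.realize_restrictFreeVar (M := M) (φ := φ)
    (f := (fun a => a.1 : φ.freeVarFinset → ℕ)) (v := v) (xs := (default : Fin 0 → M)) v
    (fun _ => rfl)
  have h2 := BoundedFormula.realize_restrictFreeVar (M := M) (φ := φ)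
    (f := (fun a => a.1 : φ.freeVarFinset → ℕ)) (v := v) (xs := (default : Fin 0 → M)) w
    (fun a => h a.1 a.2)
  exact h1.symm.trans h2

theorem grow (h1 : GCal) (q : Cnd) (hq : q.Good) (k2 n2 : ℕ) (hk : q.k ≤ k2) (hn : q.n ≤ n2)
    (z : ℕ → q.M) (hz : ∀ i < q.k, z i = q.x i) (hi : InjB k2 z) :
    (⟨q.M, q.str, z, k2, n2⟩ : Cnd).Good ∧ q.Ext ⟨q.M, q.str, z, k2, n2⟩ := by
  refine ⟨⟨hq.pa, hq.sat, hi, hq.k1.trans hk, hq.n1.trans hn⟩, ⟨hk, hn, ?_⟩⟩
  exact h1.loc q.M q.M q.n q.k q.x q.x q.x z (fun _ _ => rfl) (fun i hi => (hz i hi).symm)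
    (h1.refl q.M q.n q.k q.x)

theorem extTrans (h1 : GCal) {q q' q'' : Cnd} (h : q.Ext q') (h' : q'.Ext q'') : q.Ext q'' := by
  refine ⟨h.k.trans h'.k, h.n.trans h'.n, ?_⟩
  exact h1.trans q.M q'.M q''.M q.n q.k q.x q'.x q''.x h.g
    (h1.mono q'.M q''.M q'.n q.n q'.k q.k q'.x q''.x h.n h.k h'.g)

theorem task (h1 : S_GCAL) : S_DENS := by
  intro q hq
  have hG : GCal := h1
  -- growing a condition
  have key : ∀ (q : Cnd), q.Good → ∀ k2 n2 : ℕ, q.k ≤ k2 → q.n ≤ n2 → ∃ z : ℕ → q.M,
      (⟨q.M, q.str, z, k2, n2⟩ : Cnd).Good ∧ q.Ext ⟨q.M, q.str, z, k2, n2⟩ := by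
    intro q hq k2 n2 hk hn
    have : Nonempty q.M := ⟨q.x 0⟩
    have : Infinite q.M := infinite_of_PA q.M hq.pa
    obtain ⟨g, hg, hg2⟩ := inj_extend q.x q.k hq.inj
    exact ⟨g, grow hG q hq k2 n2 hk hn g hg2 fun i _ j _ h => hg h⟩
  have keya : ∀ (q : Cnd), q.Good → ∀ a : ℕ, ∃ q' : Cnd, q'.Good ∧ q.Ext q' ∧ a ≤ q'.k ∧
      a ≤ q'.n := by
    intro q hq a
    obtain ⟨z, hz1, hz2⟩ := key q hq (max q.k a) (max q.n a) (le_max_left _ _) (le_max_left _ _)
    exact ⟨_, hz1, hz2, le_max_right _ _, le_max_right _ _⟩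
  refine ⟨keya q hq, ?_, ?_⟩
  · intro m e
    obtain ⟨q1, hq1, he1, hk1, hn1⟩ := keya q hq (max m (e + 1))
    have hm : m ≤ q1.n := (le_max_left _ _).trans hn1
    have he : e < q1.k := lt_of_lt_of_le (Nat.lt_succ_self e) ((le_max_right _ _).trans hk1)
    cases m with
    | zero =>
      refine ⟨q1, hq1, he1, hm, ?_⟩
      cases hD : Dg q1.x e
      · right; exact ⟨he, hD⟩
      · left; exact ⟨he, hD⟩
    | succ m =>
      by_cases hF : Fc (m + 1) q1.x q1.k e false
      · exact ⟨q1, hq1, he1, hm, Or.inr hF⟩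
      · have hF' : ∃ y : ℕ → q1.M, (∀ i < q1.k, y i = q1.x i) ∧ ∃ k' ≥ q1.k, InjB k' y ∧
            Fc (m + 1) y k' e true := by
          by_contra hcon
          apply hF
          intro y hy k' hk' hi hc
          exact hcon ⟨y, hy, k', hk', hi, hc⟩
        obtain ⟨y, hy, k', hk', hi, hc⟩ := hF'
        obtain ⟨hg1, hg2⟩ := grow hG q1 hq1 k' q1.n hk' le_rfl y hy hi
        exact ⟨_, hg1, extTrans hG he1 hg2, hm, Or.inl hc⟩
  · intro φ
    obtain ⟨q1, hq1, he1, hk1, hn1⟩ := keya q hq (max (rk φ + 1) (φ.freeVarFinset.sup id))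
    have hm : rk φ + 1 ≤ q1.n := (le_max_left _ _).trans hn1
    have he : ∀ i ∈ φ.freeVarFinset, i ≤ q1.k := by
      intro i hi
      exact (Finset.le_sup (f := id) hi).trans ((le_max_right _ _).trans hk1)
    by_cases hy : ∃ y, φ.Realize (cs y q1.x)
    · obtain ⟨y, hy⟩ := hy
      by_cases hyx : ∃ i < q1.k, q1.x i = y
      · obtain ⟨i, hi, rfl⟩ := hyx
        exact ⟨q1, hq1, he1, hm, he, fun _ => ⟨i, hi, hy⟩⟩
      · have hz1 : ∀ i < q1.k, Function.update q1.x q1.k y i = q1.x i := by
          intro i hi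
          rw [Function.update_of_ne (ne_of_lt hi)]
        have hinj : InjB (q1.k + 1) (Function.update q1.x q1.k y) := by
          intro i hi j hj hij
          by_cases h3 : i = q1.k
          · by_cases h4 : j = q1.k
            · rw [h3, h4]
            · exfalso
              subst h3
              rw [Function.update_self, Function.update_of_ne h4] at hij
              exact hyx ⟨j, by omega, hij.symm⟩
          · by_cases h4 : j = q1.k
            · exfalso
              subst h4
              rw [Function.update_self, Function.update_of_ne h3] at hij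
              exact hyx ⟨i, by omega, hij⟩
            · rw [Function.update_of_ne h3, Function.update_of_ne h4] at hij
              exact hq1.inj i (by omega) j (by omega) hij
        obtain ⟨hg1, hg2⟩ := grow hG q1 hq1 (q1.k + 1) q1.n (Nat.le_succ _) le_rfl
          (Function.update q1.x q1.k y) hz1 hinj
        refine ⟨_, hg1, extTrans hG he1 hg2, hm, fun i hi => (he i hi).trans (Nat.le_succ _),
          fun _ => ⟨q1.k, Nat.lt_succ_self _, ?_⟩⟩
        have h5 : Function.update q1.x q1.k y q1.k = y := Function.update_self _ _ _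
        show φ.Realize (cs (Function.update q1.x q1.k y q1.k) (Function.update q1.x q1.k y))
        rw [h5]
        refine (realize_congr φ _ _ ?_).1 hy
        intro i hi
        have h6 := he i hi
        cases i with
        | zero => rfl
        | succ i => exact (hz1 i (by omega)).symm
    · exact ⟨q1, hq1, he1, hm, he, fun h => absurd h hy⟩

end Pool.Agent.W930.SFD
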