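import Pool.Agent.W921.SF.Stm

/-!
The back-and-forth game preserves the truth of formulas.
-/

set_option autoImplicit false

open FirstOrder FirstOrder.Language Pool.Agent.Helper227.EN

namespace Pool.Agent.W930.SFD

open Pool.Agent.W921.SF

/-- an atomic fact about a sequence -/
def Fact {M : Type} [LA.Structure M] (y : ℕ → M) (f : ℕ × ℕ × ℕ × ℕ) : Prop :=
  Dg y (cd f.1 f.2.1 f.2.2.1 f.2.2.2) = true

/-- the positions of an atomic fact are below `k` -/
def Bel (k : ℕ) (f : ℕ × ℕ × ℕ × ℕ) : Prop := f.2.1 < k ∧ f.2.2.1 < k ∧ f.2.2.2 < k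

theorem Bel.mono {k k' : ℕ} {f : ℕ × ℕ × ℕ × ℕ} (h : Bel k f) (hk : k ≤ k') : Bel k' f :=
  ⟨h.1.trans_le hk, h.2.1.trans_le hk, h.2.2.trans_le hk⟩

theorem Fact.congr {M : Type} [LA.Structure M] {y y' : ℕ → M} {f : ℕ × ℕ × ℕ × ℕ} {k : ℕ}
    (hb : Bel k f) (h : ∀ i < k, y i = y' i) : Fact y f ↔ Fact y' f := by
  obtain ⟨c, i, j, l⟩ := f
  have hi : y i = y' i := h i hb.1
  have hj : y j = y' j := h j hb.2.1
  have hl : y l = y' l := h l hb.2.2
  have e1 : (Nat.unpair (Nat.unpair (cd c i j l)).2).1 = i := by simp [cd]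
  have e2 : (Nat.unpair (Nat.unpair (Nat.unpair (cd c i j l)).2).2).1 = j := by simp [cd]
  have e3 : (Nat.unpair (Nat.unpair (Nat.unpair (cd c i j l)).2).2).2 = l := by simp [cd]
  show Dg y (cd c i j l) = true ↔ Dg y' (cd c i j l) = true
  simp only [Dg]
  rw [e1, e2, e3, hi, hj, hl]

theorem fact_add {M : Type} [LA.Structure M] (y : ℕ → M) (i j l : ℕ) :
    Fact y (0, i, j, l) ↔ Structure.funMap (L := LA) AF.add ![y i, y j] = y l := by
  simp [Fact, Dg, cd]

theorem fact_mul {M : Type} [LA.Structure M] (y : ℕ → M) (i j l : ℕ) :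
    Fact y (1, i, j, l) ↔ Structure.funMap (L := LA) AF.mul ![y i, y j] = y l := by
  simp [Fact, Dg, cd]

theorem fact_lt {M : Type} [LA.Structure M] (y : ℕ → M) (i j l : ℕ) :
    Fact y (2, i, j, l) ↔ Structure.RelMap (L := LA) AR.lt ![y i, y j] := by
  simp [Fact, Dg, cd]

theorem fact_zero {M : Type} [LA.Structure M] (y : ℕ → M) (i j l : ℕ) :
    Fact y (3, i, j, l) ↔ Structure.funMap (L := LA) AF.zero ![] = y i := by
  simp [Fact, Dg, cd]

theorem fact_one {M : Type} [LA.Structure M] (y : ℕ → M) (i j l : ℕ) :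
    Fact y (4, i, j, l) ↔ Structure.funMap (L := LA) AF.one ![] = y i := by
  simp [Fact, Dg, cd]

/-- The value of a term is determined by a set of atomic facts about an extension of the
sequence. -/
theorem term_facts {α : Type} (ρ : α → ℕ) (t : LA.Term α) : ∀ k : ℕ, (∀ a, ρ a < k) →
    ∃ k' ≥ k, ∃ u < k', ∃ F : Set (ℕ × ℕ × ℕ × ℕ), (∀ f ∈ F, Bel k' f) ∧
      (∀ (M : Type) [LA.Structure M] (x : ℕ → M), ∃ y : ℕ → M, (∀ i < k, y i = x i) ∧
        ∀ f ∈ F, Fact y f) ∧
      ∀ (M : Type) [LA.Structure M] (y : ℕ → M), (∀ f ∈ F, Fact y f) →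
        y u = t.realize fun a => y (ρ a) := by
  induction t with
  | var a =>
    intro k hk
    exact ⟨k, le_rfl, ρ a, hk a, ∅, by simp, fun M _ x => ⟨x, fun _ _ => rfl, by simp⟩,
      fun M _ y _ => rfl⟩
  | @func n f ts ih =>
    intro k hk
    have bin : ∀ (o : ℕ) (g : ∀ (M : Type) [LA.Structure M], M → M → M),
        (∀ (M : Type) [LA.Structure M] (y : ℕ → M) (i j l : ℕ),
          Fact y (o, i, j, l) ↔ g M (y i) (y j) = y l) →
        ∀ t t' : LA.Term α,
        (∀ k : ℕ, (∀ a, ρ a < k) →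
          ∃ k' ≥ k, ∃ u < k', ∃ F : Set (ℕ × ℕ × ℕ × ℕ), (∀ f ∈ F, Bel k' f) ∧
            (∀ (M : Type) [LA.Structure M] (x : ℕ → M), ∃ y : ℕ → M, (∀ i < k, y i = x i) ∧
              ∀ f ∈ F, Fact y f) ∧
            ∀ (M : Type) [LA.Structure M] (y : ℕ → M), (∀ f ∈ F, Fact y f) →
              y u = t.realize fun a => y (ρ a)) →
        (∀ k : ℕ, (∀ a, ρ a < k) →
          ∃ k' ≥ k, ∃ u < k', ∃ F : Set (ℕ × ℕ × ℕ × ℕ), (∀ f ∈ F, Bel k' f) ∧
            (∀ (M : Type) [LA.Structure M] (x : ℕ → M), ∃ y : ℕ → M, (∀ i < k, y i = x i) ∧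
              ∀ f ∈ F, Fact y f) ∧
            ∀ (M : Type) [LA.Structure M] (y : ℕ → M), (∀ f ∈ F, Fact y f) →
              y u = t'.realize fun a => y (ρ a)) →
        ∃ k' ≥ k, ∃ u < k', ∃ F : Set (ℕ × ℕ × ℕ × ℕ), (∀ f ∈ F, Bel k' f) ∧
          (∀ (M : Type) [LA.Structure M] (x : ℕ → M), ∃ y : ℕ → M, (∀ i < k, y i = x i) ∧
            ∀ f ∈ F, Fact y f) ∧
          ∀ (M : Type) [LA.Structure M] (y : ℕ → M), (∀ f ∈ F, Fact y f) →
            y u = g M (t.realize fun a => y (ρ a)) (t'.realize fun a => y (ρ a)) := by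
      intro o g hg t t' h h'
      obtain ⟨k1, hk1, u1, hu1, F1, hF1, hx1, hy1⟩ := h k hk
      obtain ⟨k2, hk2, u2, hu2, F2, hF2, hx2, hy2⟩ := h' k1 fun a => (hk a).trans_le hk1
      refine ⟨k2 + 1, by omega, k2, by omega, F1 ∪ F2 ∪ {(o, u1, u2, k2)}, ?_, ?_, ?_⟩
      · rintro f ((hf | hf) | hf)
        · exact (hF1 f hf).mono (by omega)
        · exact (hF2 f hf).mono (by omega)
        · rw [Set.mem_singleton_iff] at hf
          subst hf
          exact ⟨by show u1 < k2 + 1; omega, by show u2 < k2 + 1; omega,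
            by show k2 < k2 + 1; omega⟩
      · intro M _ x
        obtain ⟨y1, ha1, hb1⟩ := hx1 M x
        obtain ⟨y2, ha2, hb2⟩ := hx2 M y1
        have hup : ∀ i < k2, Function.update y2 k2 (g M (y2 u1) (y2 u2)) i = y2 i := fun i hi =>
          Function.update_of_ne (ne_of_lt hi) _ _
        refine ⟨Function.update y2 k2 (g M (y2 u1) (y2 u2)), ?_, ?_⟩
        · intro i hi
          rw [hup i (by omega), ha2 i (by omega), ha1 i hi]
        · rintro f ((hf | hf) | hf)
          · exact (Fact.congr ((hF1 f hf).mono hk2) hup).2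
              ((Fact.congr (hF1 f hf) ha2).2 (hb1 f hf))
          · exact (Fact.congr (hF2 f hf) hup).2 (hb2 f hf)
          · rw [Set.mem_singleton_iff] at hf
            subst hf
            rw [hg, hup u1 (by omega), hup u2 (by omega), Function.update_self]
      · intro M _ y hy
        rw [← hy1 M y fun f hf => hy f (Or.inl (Or.inl hf)),
          ← hy2 M y fun f hf => hy f (Or.inl (Or.inr hf))]
        exact ((hg M y _ _ _).1 (hy (o, u1, u2, k2) (Or.inr rfl))).symm
    have con : ∀ (o : ℕ) (g : ∀ (M : Type) [LA.Structure M], M),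
        (∀ (M : Type) [LA.Structure M] (y : ℕ → M) (i j l : ℕ),
          Fact y (o, i, j, l) ↔ g M = y i) →
        ∃ k' ≥ k, ∃ u < k', ∃ F : Set (ℕ × ℕ × ℕ × ℕ), (∀ f ∈ F, Bel k' f) ∧
          (∀ (M : Type) [LA.Structure M] (x : ℕ → M), ∃ y : ℕ → M, (∀ i < k, y i = x i) ∧
            ∀ f ∈ F, Fact y f) ∧
          ∀ (M : Type) [LA.Structure M] (y : ℕ → M), (∀ f ∈ F, Fact y f) → y u = g M := by
      intro o g hg
      refine ⟨k + 1, by omega, k, by omega, {(o, k, 0, 0)}, ?_, ?_, ?_⟩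
      · intro f hf
        rw [Set.mem_singleton_iff] at hf
        subst hf
        exact ⟨by show k < k + 1; omega, by show 0 < k + 1; omega, by show 0 < k + 1; omega⟩
      · intro M _ x
        refine ⟨Function.update x k (g M), fun i hi => Function.update_of_ne (ne_of_lt hi) _ _, ?_⟩
        intro f hf
        rw [Set.mem_singleton_iff] at hf
        subst hf
        rw [hg, Function.update_self]
      · intro M _ y hy
        exact ((hg M y _ _ _).1 (hy (o, k, 0, 0) rfl)).symm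
    cases f with
    | zero =>
      obtain ⟨k', hk', u, hu, F, h1, h2, h3⟩ := con 3
        (fun M _ => Structure.funMap (L := LA) AF.zero ![]) (fun M _ y i j l => fact_zero y i j l)
      refine ⟨k', hk', u, hu, F, h1, h2, fun M _ y hy => ?_⟩
      rw [h3 M y hy, Term.realize]
      exact congrArg _ (Subsingleton.elim _ _)
    | one =>
      obtain ⟨k', hk', u, hu, F, h1, h2, h3⟩ := con 4
        (fun M _ => Structure.funMap (L := LA) AF.one ![]) (fun M _ y i j l => fact_one y i j l)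
      refine ⟨k', hk', u, hu, F, h1, h2, fun M _ y hy => ?_⟩
      rw [h3 M y hy, Term.realize]
      exact congrArg _ (Subsingleton.elim _ _)
    | add =>
      obtain ⟨k', hk', u, hu, F, h1, h2, h3⟩ := bin 0
        (fun M _ z w => Structure.funMap (L := LA) AF.add ![z, w]) (fun M _ y i j l => fact_add y i j l)
        (ts 0) (ts 1) (ih 0) (ih 1)
      refine ⟨k', hk', u, hu, F, h1, h2, fun M _ y hy => ?_⟩
      rw [h3 M y hy, Term.realize]
      refine congrArg _ ?_
      funext i; fin_cases i <;> rfl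
    | mul =>
      obtain ⟨k', hk', u, hu, F, h1, h2, h3⟩ := bin 1
        (fun M _ z w => Structure.funMap (L := LA) AF.mul ![z, w]) (fun M _ y i j l => fact_mul y i j l)
        (ts 0) (ts 1) (ih 0) (ih 1)
      refine ⟨k', hk', u, hu, F, h1, h2, fun M _ y hy => ?_⟩
      rw [h3 M y hy, Term.realize]
      refine congrArg _ ?_
      funext i; fin_cases i <;> rfl

/-- the values of two terms -/
theorem term_facts2 {α : Type} (ρ : α → ℕ) (t t' : LA.Term α) (k : ℕ) (hk : ∀ a, ρ a < k) :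
    ∃ k' ≥ k, ∃ u < k', ∃ u' < k', ∃ F : Set (ℕ × ℕ × ℕ × ℕ), (∀ f ∈ F, Bel k' f) ∧
      (∀ (M : Type) [LA.Structure M] (x : ℕ → M), ∃ y : ℕ → M, (∀ i < k, y i = x i) ∧
        ∀ f ∈ F, Fact y f) ∧
      ∀ (M : Type) [LA.Structure M] (y : ℕ → M), (∀ f ∈ F, Fact y f) →
        (y u = t.realize fun a => y (ρ a)) ∧ y u' = t'.realize fun a => y (ρ a) := by
  obtain ⟨k1, hk1, u1, hu1, F1, hF1, hx1, hy1⟩ := term_facts ρ t k hk
  obtain ⟨k2, hk2, u2, hu2, F2, hF2, hx2, hy2⟩ := term_facts ρ t' k1 fun a => (hk a).trans_le hk1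
  refine ⟨k2, by omega, u1, by omega, u2, hu2, F1 ∪ F2, ?_, ?_, ?_⟩
  · rintro f (hf | hf)
    · exact (hF1 f hf).mono (by omega)
    · exact (hF2 f hf).mono (by omega)
  · intro M _ x
    obtain ⟨y1, ha1, hb1⟩ := hx1 M x
    obtain ⟨y2, ha2, hb2⟩ := hx2 M y1
    refine ⟨y2, fun i hi => by rw [ha2 i (by omega), ha1 i hi], ?_⟩
    rintro f (hf | hf)
    · exact (Fact.congr (hF1 f hf) ha2).2 (hb1 f hf)
    · exact hb2 f hf
  · intro M _ y hy
    exact ⟨hy1 M y fun f hf => hy f (Or.inl hf), hy2 M y fun f hf => hy f (Or.inr hf)⟩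

theorem g0_fact {M M' : Type} [LA.Structure M] [LA.Structure M'] {k : ℕ} {y : ℕ → M} {y' : ℕ → M'}
    (h : G 0 k y y') {f : ℕ × ℕ × ℕ × ℕ} (hf : Bel k f) : Fact y f ↔ Fact y' f := by
  unfold Fact
  rw [h f.1 f.2.1 f.2.2.1 f.2.2.2 hf.1 hf.2.1 hf.2.2]

theorem g0_eq (h1 : GCal) {M M' : Type} [LA.Structure M] [LA.Structure M'] (hM : M ⊨ PA)
    (hM' : M' ⊨ PA) {k : ℕ} {y : ℕ → M} {y' : ℕ → M'}
    (h : G 0 k y y') {u v : ℕ} (hu : u < k) (hv : v < k) (he : y' u = y' v) : y u = y v := by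
  by_contra hne
  have h2 : G 0 2 (fun i => y (if i = 0 then u else v)) (fun i => y' (if i = 0 then u else v)) :=
    h1.ren M M' 0 k 2 y y' (fun i => if i = 0 then u else v)
      (by intro i _; split_ifs <;> assumption) h
  have h3 := h1.inj M M' hM hM' 0 2 _ _ h2 (by
    intro i hi j hj hij
    have hi' : i = 0 ∨ i = 1 := by omega
    have hj' : j = 0 ∨ j = 1 := by omega
    rcases hi' with rfl | rfl <;> rcases hj' with rfl | rfl
    · rfl
    · exact absurd hij hne
    · exact absurd hij.symm hne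
    · rfl)
  exact absurd (h3 0 (by norm_num) 1 (by norm_num) he) (by norm_num)

/-- binary atomic predicates are preserved by a game with one round -/
theorem atomic (h1 : GCal) {M M' : Type} [LA.Structure M] [LA.Structure M']
    {α : Type} (ρ : α → ℕ) (t t' : LA.Term α) (k : ℕ)
    (hk : ∀ a, ρ a < k) (x : ℕ → M) (x' : ℕ → M') (m : ℕ) (hm : 1 ≤ m) (h : G m k x x')
    (P : M → M → Prop) (P' : M' → M' → Prop)
    (hP : ∀ (k' : ℕ) (y : ℕ → M) (y' : ℕ → M') (u v : ℕ), G 0 k' y y' → u < k' → v < k' →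
      (P (y u) (y v) ↔ P' (y' u) (y' v))) :
    P (t.realize fun a => x (ρ a)) (t'.realize fun a => x (ρ a)) ↔
      P' (t.realize fun a => x' (ρ a)) (t'.realize fun a => x' (ρ a)) := by
  obtain ⟨k', hk', u, hu, u', hu', F, hF, hx, hy⟩ := term_facts2 ρ t t' k hk
  have hG : G 1 k x x' := h1.mono M M' m 1 k k x x' hm le_rfl h
  obtain ⟨y, hya, hyb⟩ := hx M x
  obtain ⟨y', hya', hG'⟩ := hG.1 y hya k' hk'
  have hyb' : ∀ f ∈ F, Fact y' f := fun f hf => (g0_fact hG' (hF f hf)).1 (hyb f hf)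
  have e1 : (fun a => y (ρ a)) = fun a => x (ρ a) := funext fun a => hya _ (hk a)
  have e2 : (fun a => y' (ρ a)) = fun a => x' (ρ a) := funext fun a => hya' _ (hk a)
  have h3 := hy M y hyb
  have h4 := hy M' y' hyb'
  rw [e1] at h3
  rw [e2] at h4
  rw [← h3.1, ← h3.2, ← h4.1, ← h4.2]
  exact hP k' y y' u u' hG' hu hu'

theorem inv_bf (h1 : GCal) {α : Type} (ρ : α → ℕ) {n : ℕ} (ψ : LA.BoundedFormula α n) :
    ∀ (m k : ℕ) (τ : Fin n → ℕ), rk ψ ≤ m → (∀ a, ρ a < k) → (∀ i, τ i < k) →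
      ∀ (M M' : Type) [LA.Structure M] [LA.Structure M'], M ⊨ PA → M' ⊨ PA →
        ∀ (x : ℕ → M) (x' : ℕ → M'), G m k x x' →
          (ψ.Realize (fun a => x (ρ a)) (fun i => x (τ i)) ↔
            ψ.Realize (fun a => x' (ρ a)) fun i => x' (τ i)) := by
  have hel : ∀ (n : ℕ) (τ : Fin n → ℕ) (M : Type) (x : ℕ → M),
      (Sum.elim (fun a => x (ρ a)) fun i : Fin n => x (τ i)) =
      fun a => x (Sum.elim ρ τ a) := by
    intro n τ M x
    funext a
    cases a <;> rfl
  induction ψ with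
  | falsum => intro m k τ _ _ _ M M' _ _ _ _ x x' _; exact Iff.rfl
  | @equal n t t' =>
    intro m k τ hm hρ hτ M M' _ _ hM hM' x x' hG
    rw [BoundedFormula.Realize, BoundedFormula.Realize, hel, hel]
    refine atomic h1 (Sum.elim ρ τ) t t' k ?_ x x' m hm hG (fun a b => a = b) (fun a b => a = b) ?_
    · intro a
      cases a with
      | inl a => exact hρ a
      | inr i => exact hτ i
    · intro k' y y' u v hG' hu hv
      exact ⟨fun h => g0_eq h1 hM' hM (h1.symm M M' 0 k' y y' hG') hu hv h,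
        fun h => g0_eq h1 hM hM' hG' hu hv h⟩
  | @rel n l R ts =>
    intro m k τ hm hρ hτ M M' _ _ hM hM' x x' hG
    cases R with
    | lt =>
      rw [BoundedFormula.Realize, BoundedFormula.Realize, hel, hel]
      have e1 : (fun i => (ts i).realize fun a => x (Sum.elim ρ τ a)) =
          ![(ts 0).realize fun a => x (Sum.elim ρ τ a),
            (ts 1).realize fun a => x (Sum.elim ρ τ a)] := by
        funext i; fin_cases i <;> rfl
      have e2 : (fun i => (ts i).realize fun a => x' (Sum.elim ρ τ a)) =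
          ![(ts 0).realize fun a => x' (Sum.elim ρ τ a),
            (ts 1).realize fun a => x' (Sum.elim ρ τ a)] := by
        funext i; fin_cases i <;> rfl
      rw [e1, e2]
      refine atomic h1 (Sum.elim ρ τ) (ts 0) (ts 1) k ?_ x x' m hm hG
        (fun a b => Structure.RelMap (L := LA) AR.lt ![a, b])
        (fun a b => Structure.RelMap (L := LA) AR.lt ![a, b]) ?_
      · intro a
        cases a with
        | inl a => exact hρ a
        | inr i => exact hτ i
      · intro k' y y' u v hG' hu hv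
        exact ((fact_lt y u v u).symm.trans (g0_fact hG' ⟨hu, hv, hu⟩)).trans (fact_lt y' u v u)
  | imp φ ψ ihφ ihψ =>
    intro m k τ hm hρ hτ M M' _ _ hM hM' x x' hG
    have hm' : max (rk φ) (rk ψ) ≤ m := hm
    rw [BoundedFormula.realize_imp, BoundedFormula.realize_imp,
      ihφ m k τ ((le_max_left _ _).trans hm') hρ hτ M M' hM hM' x x' hG,
      ihψ m k τ ((le_max_right _ _).trans hm') hρ hτ M M' hM hM' x x' hG]
  | @all n φ ih =>
    intro m k τ hm hρ hτ M M' _ _ hM hM' x x' hG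
    have hm' : rk φ + 1 ≤ m := hm
    obtain ⟨m, rfl⟩ : ∃ m', m = m' + 1 := ⟨m - 1, by omega⟩
    have key : ∀ (N N' : Type) [LA.Structure N] [LA.Structure N'], N ⊨ PA → N' ⊨ PA →
        ∀ (z : ℕ → N) (z' : ℕ → N') (w : ℕ → N) (w' : ℕ → N'), (∀ i < k, w i = z i) →
        (∀ i < k, w' i = z' i) → G m (k + 1) w w' →
        (φ.Realize (fun a => z (ρ a)) (Fin.snoc (fun i => z (τ i)) (w k)) ↔
          φ.Realize (fun a => z' (ρ a)) (Fin.snoc (fun i => z' (τ i)) (w' k))) := by
      intro N N' _ _ hN hN' z z' w w' hw hw' hg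
      have h2 := ih m (k + 1) (Fin.snoc τ k : Fin (n + 1) → ℕ) (by omega)
        (fun a => (hρ a).trans (by omega)) (by
          intro i
          refine Fin.lastCases ?_ (fun j => ?_) i
          · rw [Fin.snoc_last]; omega
          · rw [Fin.snoc_castSucc]; exact (hτ j).trans (by omega)) N N' hN hN' w w' hg
      have e1 : ∀ {K : Type} (z w : ℕ → K), (∀ i < k, w i = z i) →
          (fun a => w (ρ a)) = fun a => z (ρ a) := fun z w h => funext fun a => h _ (hρ a)
      have e2 : ∀ {K : Type} (z w : ℕ → K), (∀ i < k, w i = z i) →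
          (fun i : Fin (n + 1) => w ((Fin.snoc τ k : Fin (n + 1) → ℕ) i)) =
            (Fin.snoc (fun i => z (τ i)) (w k) : Fin (n + 1) → K) := by
        intro K z w h
        funext i
        refine Fin.lastCases ?_ (fun j => ?_) i
        · rw [Fin.snoc_last, Fin.snoc_last]
        · rw [Fin.snoc_castSucc, Fin.snoc_castSucc, h _ (hτ j)]
      rw [e1 z w hw, e1 z' w' hw', e2 z w hw, e2 z' w' hw'] at h2
      exact h2
    rw [BoundedFormula.realize_all, BoundedFormula.realize_all]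
    constructor
    · intro h a
      have hup : ∀ i < k, Function.update x' k a i = x' i := fun i hi =>
        Function.update_of_ne (ne_of_lt hi) _ _
      obtain ⟨y, hy, hg⟩ := hG.2 (Function.update x' k a) hup (k + 1) (Nat.le_succ k)
      have h3 := (key M M' hM hM' x x' y _ hy hup hg).1 (h (y k))
      rwa [Function.update_self] at h3
    · intro h a
      have hup : ∀ i < k, Function.update x k a i = x i := fun i hi =>
        Function.update_of_ne (ne_of_lt hi) _ _
      obtain ⟨y, hy, hg⟩ := hG.1 (Function.update x k a) hup (k + 1) (Nat.le_succ k)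
      have h3 := (key M M' hM hM' x x' _ y hup hy hg).2 (h (y k))
      rwa [Function.update_self] at h3

theorem rk_restrict {α β : Type} [DecidableEq α] {n : ℕ} (φ : LA.BoundedFormula α n) :
    ∀ f : φ.freeVarFinset → β, rk (φ.restrictFreeVar f) = rk φ := by
  induction φ with
  | falsum => intro f; rfl
  | equal t t' => intro f; rfl
  | rel R ts => intro f; rfl
  | imp φ ψ h h' =>
    intro f
    simp only [BoundedFormula.restrictFreeVar, rk, h, h']
  | all φ h =>
    intro f
    simp only [BoundedFormula.restrictFreeVar, rk, h]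

theorem taskINV (h1 : S_GCAL) : S_INV := by
  intro φ m k hm hfv M M' _ _ hM hM' x x' hG
  have h2 := inv_bf h1 (fun a : φ.freeVarFinset => (a : ℕ)) (φ.restrictFreeVar (fun a => a)) m k
    Fin.elim0 (by rw [rk_restrict]; exact hm) (fun a => hfv a.1 a.2) (fun i => i.elim0) M M' hM hM'
    x x' hG
  have h3 : ∀ (K : Type) [LA.Structure K] (z : ℕ → K) (w : Fin 0 → K),
      (φ.restrictFreeVar (fun a => a)).Realize (fun a => z (a : ℕ)) w ↔ φ.Realize z := by
    intro K _ z w
    have h1 := BoundedFormula.realize_restrictFreeVar (M := K) (φ := φ)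
      (f := (fun a => a : φ.freeVarFinset → φ.freeVarFinset)) (v := fun a => z a)
      (xs := w) z (fun _ => rfl)
    refine h1.trans ?_
    have h2 : w = default := Subsingleton.elim _ _
    rw [h2]
    rfl
  exact ((h3 M x _).symm.trans h2).trans (h3 M' x' _)

end Pool.Agent.W930.SFD
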