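import Pool.Agent.W921.SF.Stm

/-!
Compactness with a saturated model, by an ultraproduct.
-/

set_option autoImplicit false

open FirstOrder FirstOrder.Language Pool.Agent.Helper227.EN

namespace Pool.Agent.W930.SFD

open Pool.Agent.W921.SF

/-- Ultraproducts over the natural numbers are saturated. -/
theorem satu_ultraproduct (Ms : ℕ → Type) [∀ s, LA.Structure (Ms s)] [∀ s, Nonempty (Ms s)] :
    Satu (((Filter.hyperfilter ℕ : Ultrafilter ℕ) : Filter ℕ).Product Ms) := by
  classical
  intro x k Δ hfin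
  have hrep : ∀ y : ((Filter.hyperfilter ℕ : Ultrafilter ℕ) : Filter ℕ).Product Ms,
      ∃ Y : ∀ s, Ms s, (Y : ((Filter.hyperfilter ℕ : Ultrafilter ℕ) : Filter ℕ).Product Ms) = y :=
    fun y => Quotient.exists_rep y
  choose X hX using fun i => hrep (x i)
  let T : ℕ → ℕ → Prop := fun s n => ∃ y : ℕ → Ms s, (∀ i < k, y i = X i s) ∧
    ∀ j < n, (Δ j).Realize y
  have hT0 : ∀ s, T s 0 := fun s => ⟨fun i => X i s, fun _ _ => rfl, fun j hj => absurd hj (by omega)⟩
  have hTn : ∀ s, T s (Nat.findGreatest (T s) s) := fun s =>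
    Nat.findGreatest_spec (P := T s) (Nat.zero_le s) (hT0 s)
  choose Y hY1 hY2 using hTn
  refine ⟨fun i => ((fun s => Y s i : ∀ s, Ms s) :
    ((Filter.hyperfilter ℕ : Ultrafilter ℕ) : Filter ℕ).Product Ms), ?_, ?_⟩
  · intro i hi
    beta_reduce
    rw [← hX i]
    exact congrArg _ (funext fun s => hY1 s i hi)
  · intro j
    refine (Ultraproduct.realize_formula_cast (Δ j) (fun i s => Y s i)).2 ?_
    obtain ⟨y0, hy0, hy1⟩ := hfin (j + 1)
    choose Y0 hY0 using fun i => hrep (y0 i)
    have e1 : ∀ᶠ s in (Filter.hyperfilter ℕ : Filter ℕ), ∀ i ∈ Set.Iio k, Y0 i s = X i s := by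
      refine (Filter.eventually_all_finite (Set.finite_Iio k)).2 fun i hi => ?_
      have h3 := hy0 i hi
      rw [← hY0 i, ← hX i] at h3
      exact Quotient.eq''.1 h3
    have e2 : ∀ᶠ s in (Filter.hyperfilter ℕ : Filter ℕ), ∀ i ∈ Set.Iio (j + 1),
        (Δ i).Realize fun l => Y0 l s := by
      refine (Filter.eventually_all_finite (Set.finite_Iio (j + 1))).2 fun i hi => ?_
      refine (Ultraproduct.realize_formula_cast (Δ i) (fun l s => Y0 l s)).1 ?_
      have h4 : (fun l => ((Y0 l : ∀ s, Ms s) :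
          ((Filter.hyperfilter ℕ : Ultrafilter ℕ) : Filter ℕ).Product Ms)) = y0 :=
        funext fun l => hY0 l
      have h5 := hy1 i hi
      rw [← h4] at h5
      exact h5
    have e3 : ∀ᶠ s in (Filter.hyperfilter ℕ : Filter ℕ), j + 1 ≤ s :=
      Nat.hyperfilter_le_atTop (Filter.eventually_ge_atTop (j + 1))
    filter_upwards [e1, e2, e3] with s h1 h2 h3
    exact hY2 s j (Nat.lt_of_succ_le (Nat.le_findGreatest h3 ⟨fun l => Y0 l s, h1, h2⟩))

theorem taskCPT : S_CPT := by
  intro Γ h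
  choose Ms iMs xs hPA hΓ using h
  have hne : ∀ s, Nonempty (Ms s) := fun s => ⟨xs s 0⟩
  refine ⟨((Filter.hyperfilter ℕ : Ultrafilter ℕ) : Filter ℕ).Product Ms, inferInstance,
    fun i => ((fun s => xs s i : ∀ s, Ms s) :
      ((Filter.hyperfilter ℕ : Ultrafilter ℕ) : Filter ℕ).Product Ms), ?_, ?_, ?_⟩
  · rw [Theory.model_iff]
    intro φ hφ
    refine (Ultraproduct.sentence_realize φ).2 (Filter.Eventually.of_forall fun s => ?_)
    have := hPA s
    exact Theory.realize_sentence_of_mem PA hφ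
  · exact satu_ultraproduct Ms
  · intro j
    refine (Ultraproduct.realize_formula_cast (Γ j) (fun i s => xs s i)).2 ?_
    have e3 : ∀ᶠ s in (Filter.hyperfilter ℕ : Filter ℕ), j < s :=
      Nat.hyperfilter_le_atTop (Filter.eventually_gt_atTop j)
    filter_upwards [e3] with s hs
    exact hΓ s j hs

end Pool.Agent.W930.SFD
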