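import Pool.Agent.W921.SF.Stm
import Pool.Agent.Helper227.EN.Alg

/-!
The sentences used in the diagonalisation are recursively enumerable.
-/

set_option autoImplicit false

open FirstOrder FirstOrder.Language Pool.Agent.Helper227.EN

namespace Pool.Agent.W930.SFD.DRE

open Pool.Agent.W921.SF
open Pool.Agent.Helper578.JD Pool.Agent.Helper578.JD.Oracle Pool.Agent.Helper578.JD.Defs

theorem comp_pair {α : Type} [Primcodable α] {f g : α → ℕ} (hf : Computable f) (hg : Computable g) :
    Computable fun a => Nat.pair (f a) (g a) :=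
  (Primrec₂.natPair.to_comp).comp hf hg

theorem comp_u1 {f : ℕ → ℕ} (h : Computable f) : Computable fun a => (f a).unpair.1 :=
  Computable.fst.comp (Computable.unpair.comp h)

theorem comp_u2 {f : ℕ → ℕ} (h : Computable f) : Computable fun a => (f a).unpair.2 :=
  Computable.snd.comp (Computable.unpair.comp h)

theorem comp_th1 : Computable th1 := comp_u1 Computable.id

theorem comp_th2 : Computable th2 := comp_u1 (comp_u2 Computable.id)

theorem comp_tau (i : ℕ) : Computable (tau i) := by
  have h : ∀ i : ℕ, Computable fun p : ℕ => (fun z : ℕ => z.unpair.2)^[i] p.unpair.2.unpair.2 := by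
    intro i
    induction i with
    | zero => exact comp_u2 (comp_u2 Computable.id)
    | succ i ih =>
      have h2 := comp_u2 ih
      refine h2.of_eq fun p => ?_
      rw [Function.iterate_succ_apply']
  exact comp_u1 (h i)

/-- computable families of codes, in models of PA -/
def CP (R : ℕ → ∀ (M : Type) [LA.Structure M], (ℕ → M) → Prop) : Prop :=
  ∃ f : ℕ → ℕ, Computable f ∧ ∀ (p : ℕ) (M : Type) [LA.Structure M], M ⊨ PA → ∀ x : ℕ → M,
    Sat (f p) x ↔ R p M x

theorem CP.congr {R S : ℕ → ∀ (M : Type) [LA.Structure M], (ℕ → M) → Prop} (h : CP R)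
    (hRS : ∀ (p : ℕ) (M : Type) [LA.Structure M], M ⊨ PA → ∀ x : ℕ → M, R p M x ↔ S p M x) :
    CP S := by
  obtain ⟨f, hf, h⟩ := h
  exact ⟨f, hf, fun p M _ hM x => (h p M hM x).trans (hRS p M hM x)⟩

theorem CP.nand {R S : ℕ → ∀ (M : Type) [LA.Structure M], (ℕ → M) → Prop} (h : CP R)
    (h' : CP S) : CP fun p M _ x => ¬ (R p M x ∧ S p M x) := by
  obtain ⟨f, hf, h⟩ := h
  obtain ⟨g, hg, h'⟩ := h'
  refine ⟨fun p => cNand (f p) (g p), comp_pair (Computable.const 1) (comp_pair hf hg),
    fun p M _ hM x => ?_⟩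
  rw [Sat_cNand, h p M hM x, h' p M hM x]

theorem CP.not {R : ℕ → ∀ (M : Type) [LA.Structure M], (ℕ → M) → Prop} (h : CP R) :
    CP fun p M _ x => ¬ R p M x := (h.nand h).congr fun p M _ _ x => by simp

theorem CP.and {R S : ℕ → ∀ (M : Type) [LA.Structure M], (ℕ → M) → Prop} (h : CP R)
    (h' : CP S) : CP fun p M _ x => R p M x ∧ S p M x :=
  (h.nand h').not.congr fun p M _ _ x => by simp

theorem CP.imp {R S : ℕ → ∀ (M : Type) [LA.Structure M], (ℕ → M) → Prop} (h : CP R)
    (h' : CP S) : CP fun p M _ x => R p M x → S p M x :=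
  (h.nand h'.not).congr fun p M _ _ x => by simp

theorem CP.or {R S : ℕ → ∀ (M : Type) [LA.Structure M], (ℕ → M) → Prop} (h : CP R)
    (h' : CP S) : CP fun p M _ x => R p M x ∨ S p M x :=
  (h.not.imp h').congr fun p M _ _ x => by tauto

theorem CP.allLt {R : ℕ → ℕ → ∀ (M : Type) [LA.Structure M], (ℕ → M) → Prop}
    (h : ∀ i, CP (R i)) (r : ℕ) : CP fun p M _ x => ∀ i < r, R i p M x := by
  induction r with
  | zero =>
    refine ((h 0).imp (h 0)).congr fun p M _ _ x => ?_
    simp
  | succ r ih =>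
    refine (ih.and (h r)).congr fun p M _ _ x => ?_
    constructor
    · rintro ⟨h1, h2⟩ i hi
      rcases Nat.lt_succ_iff_lt_or_eq.1 hi with h3 | rfl
      · exact h1 i h3
      · exact h2
    · intro h1
      exact ⟨fun i hi => h1 i (by omega), h1 r (by omega)⟩

theorem hz_pa {M : Type} [LA.Structure M] [Nonempty M] (h : M ⊨ PA) : ∀ x z y : M,
    z = Structure.funMap (L := LA) AF.zero ![] →
    (Structure.funMap (L := LA) AF.add ![x, z] = y ↔ x = y) := by
  have hPm : (M : Type) ⊨ PAminus := h.mono Set.subset_union_left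
  obtain ⟨i1, i2, i3, i4, hc⟩ := exists_alg M hPm
  intro x z y hz
  rw [hc.zero] at hz
  subst hz
  rw [hc.add, add_zero]

theorem task (h1 : S_RE) (h2 : S_CT) (h3 : S_ALL) (h4 : S_SUP) (h5 : S_FC) : S_DRE := by
  intro K N n k r hk
  choose kc hkc using fun i => h5 (K i)
  obtain ⟨b, hb⟩ : ∃ b, ∀ i ≤ r, kc i < b :=
    ⟨(Finset.range (r + 1)).sup kc + 1, fun i hi => Nat.lt_succ_of_le
      (Finset.le_sup (f := kc) (Finset.mem_range.2 (by omega)))⟩
  obtain ⟨fn, hfn, hfn2⟩ := h2 n k hk
  obtain ⟨fN, hfN, hfN2⟩ := h2 N k hk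
  obtain ⟨fa, hfa, hfa2⟩ := h3
  have hQn : ∀ t : ℕ → ℕ, Computable t →
      CP fun p M _ x => Q n (t p) (tr k fun i => x (b + i)) := fun t ht =>
    ⟨fun p => fn b (t p), hfn.comp (Computable.const b) ht, fun p M _ _ x => hfn2 b (t p) M x⟩
  have hQN : ∀ t : ℕ → ℕ, Computable t →
      CP fun p M _ x => Q N (t p) (tr k fun i => x (b + i)) := fun t ht =>
    ⟨fun p => fN b (t p), hfN.comp (Computable.const b) ht, fun p M _ _ x => hfN2 b (t p) M x⟩
  have hK : ∀ i, CP fun _ M _ x => Sat (kc i) x := fun i =>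
    ⟨fun _ => kc i, Computable.const _, fun p M _ _ x => Iff.rfl⟩
  have hT : CP fun p M _ x => Th n k p fun i => x (b + i) :=
    (hQn th1 comp_th1).and (hQn th2 comp_th2).not
  have hD : CP fun p M _ x => Dsp N k r p (fun i => Sat (kc i) x) fun i => x (b + i) := by
    refine ((hK 0).or (hQN (tau 0) (comp_tau 0))).and ((CP.allLt (R := fun i p M _ x =>
      Q N (tau i p) (tr k fun i => x (b + i)) → Sat (kc i) x →
        Sat (kc (i + 1)) x ∨ Q N (tau (i + 1) p) (tr k fun i => x (b + i))) (fun i => ?_) r).and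
      ((hQN (tau r) (comp_tau r)).nand (hK r)))
    exact (hQN (tau i) (comp_tau i)).imp ((hK i).imp ((hK (i + 1)).or
      (hQN (tau (i + 1)) (comp_tau (i + 1)))))
  obtain ⟨g, hg, hg2⟩ := hT.imp hD
  have hcomp : Computable fun q : ℕ × ℕ => (q.1, fa b (g q.2)) :=
    Computable.fst.pair (hfa.comp (Computable.const b) (hg.comp Computable.snd))
  refine REPred.of_eq (RE.comp h1 hcomp) fun q => ?_
  refine forall_congr' fun M => forall_congr' fun iM => forall_congr' fun hM => ?_
  show Sat (fa b (g q.2)) (fun _ => nv M q.1) ↔ _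
  rw [hfa2]
  -- the truth of the formulas `K i`
  have hKi : ∀ (y : ℕ → M), ∀ i ≤ r, Sat (kc i) (fun i => if i < b then nv M q.1 else y i) ↔
      (K i).Realize fun _ => nv M q.1 := by
    intro y i hi
    have : Nonempty M := ⟨y 0⟩
    rw [← hkc i M (hz_pa hM)]
    refine h4 (kc i) M _ _ fun j hj => ?_
    rw [if_pos (by have := hb i hi; omega)]
  have hDsp : ∀ (y : ℕ → M) (x : ℕ → M), Dsp N k r q.2
      (fun i => Sat (kc i) (fun i => if i < b then nv M q.1 else y i)) x ↔
      Dsp N k r q.2 (fun i => (K i).Realize fun _ => nv M q.1) x := by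
    intro y x
    unfold Dsp
    refine and_congr ?_ (and_congr ?_ ?_)
    · exact or_congr (hKi y 0 (Nat.zero_le _)) Iff.rfl
    · refine forall_congr' fun i => forall_congr' fun hi => ?_
      exact imp_congr Iff.rfl (imp_congr (hKi y i (by omega))
        (or_congr (hKi y (i + 1) (by omega)) Iff.rfl))
    · exact not_congr (and_congr Iff.rfl (hKi y r le_rfl))
  have hshift : ∀ y : ℕ → M, (fun i => if b + i < b then nv M q.1 else y (b + i)) =
      fun i => y (b + i) := by
    intro y
    funext i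
    exact if_neg (by omega)
  have key : ∀ y : ℕ → M, Sat (g q.2) (fun i => if i < b then nv M q.1 else y i) ↔
      (Th n k q.2 (fun i => y (b + i)) → Dsp N k r q.2
        (fun i => (K i).Realize fun _ => nv M q.1) fun i => y (b + i)) := by
    intro y
    have h6 := hg2 q.2 M hM fun i => if i < b then nv M q.1 else y i
    beta_reduce at h6
    rw [hshift, hDsp] at h6
    exact h6
  constructor
  · intro h x hx
    have h6 := (key fun i => x (i - b)).1 (h fun i => x (i - b))
    have h7 : (fun i => x (b + i - b)) = x := by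
      funext i
      rw [Nat.add_sub_cancel_left]
    rw [h7] at h6
    exact h6 hx
  · intro h y
    exact (key y).2 (h _)

end Pool.Agent.W930.SFD.DRE
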