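import Pool.Agent.W921.SF.Stm

/-!
Entailment from PA is recursively enumerable.
-/

set_option autoImplicit false

open FirstOrder FirstOrder.Language Pool.Agent.Helper227.EN

namespace Pool.Agent.W930.SFD.REn

open Pool.Agent.W921.SF
open Pool.Agent.Helper578.JD Pool.Agent.Helper578.JD.Oracle Pool.Agent.Helper578.JD.Defs

section comp
variable {α : Type} [Primcodable α]

theorem comp_pair {f g : α → ℕ} (hf : Computable f) (hg : Computable g) :
    Computable fun a => Nat.pair (f a) (g a) :=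
  (Primrec₂.natPair.to_comp).comp hf hg

theorem comp_add {f g : α → ℕ} (hf : Computable f) (hg : Computable g) :
    Computable fun a => f a + g a :=
  (Primrec.nat_add.to_comp).comp hf hg

theorem comp_mul {f g : α → ℕ} (hf : Computable f) (hg : Computable g) :
    Computable fun a => f a * g a :=
  (Primrec.nat_mul.to_comp).comp hf hg

theorem comp_cNand {f g : α → ℕ} (hf : Computable f) (hg : Computable g) :
    Computable fun a => cNand (f a) (g a) :=
  comp_pair (Computable.const 1) (comp_pair hf hg)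

theorem comp_cAll {f g : α → ℕ} (hf : Computable f) (hg : Computable g) :
    Computable fun a => cAll (f a) (g a) :=
  comp_pair (comp_add hf (Computable.const 2)) hg

theorem comp_cAt {f : α → ℕ} (hf : Computable f) : Computable fun a => cAt (f a) :=
  comp_pair (Computable.const 0) hf

theorem comp_fct {f : α → ℕ} {g : α → Env} (hf : Computable f) (hg : Computable g) :
    Computable fun a => fct (f a) (g a) :=
  Computable.encode.comp (hf.pair hg)

theorem comp_set {f : α → Env} {g h : α → ℕ} (hf : Computable f) (hg : Computable g)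
    (hh : Computable h) : Computable fun a => Env.set (f a) (g a) (h a) :=
  ((Computable.list_cons.comp (hg.pair hh) (Computable.fst.comp hf))).pair (Computable.snd.comp hf)

theorem comp_hk {f g : α → ℕ} {h : α → Env} (hf : Computable f) (hg : Computable g)
    (hh : Computable h) : Computable fun a => hk (f a) (g a) (h a) :=
  comp_add (comp_mul (Computable.const 2) (Computable.encode.comp (hf.pair (hg.pair hh))))
    (Computable.const 1)

theorem lk_foldr (E : Env) (v : ℕ) :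
    lk E v = E.1.foldr (fun p acc => if v = p.1 then p.2 else acc) E.2 := by
  obtain ⟨l, d⟩ := E
  unfold lk
  show (l.lookup v).getD d = l.foldr (fun p acc => if v = p.1 then p.2 else acc) d
  induction l with
  | nil => rfl
  | cons p l ih =>
    obtain ⟨a, b⟩ := p
    rw [List.foldr_cons, ← ih]
    by_cases h : v = a
    · subst h; simp
    · simp [List.lookup, h, beq_eq_false_iff_ne.2 h]

theorem comp_lk0 : Computable fun q : Env × ℕ => lk q.1 q.2 := by
  have h : Primrec fun q : Env × ℕ =>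
      q.1.1.foldr (fun p acc => if q.2 = p.1 then p.2 else acc) q.1.2 := by
    refine Primrec.list_foldr (f := fun q : Env × ℕ => q.1.1) (g := fun q : Env × ℕ => q.1.2)
      (h := fun (q : Env × ℕ) (b : (ℕ × ℕ) × ℕ) => if q.2 = b.1.1 then b.1.2 else b.2)
      (Primrec.fst.comp Primrec.fst) (Primrec.snd.comp Primrec.fst) ?_
    refine Primrec.ite ?_ ?_ ?_
    · exact Primrec.eq.comp (Primrec.snd.comp Primrec.fst)
        (Primrec.fst.comp (Primrec.fst.comp Primrec.snd))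
    · exact Primrec.snd.comp (Primrec.fst.comp Primrec.snd)
    · exact Primrec.snd.comp Primrec.snd
  exact h.to_comp.of_eq fun q => (lk_foldr q.1 q.2).symm

theorem comp_lk {f : α → Env} {g : α → ℕ} (hf : Computable f) (hg : Computable g) :
    Computable fun a => lk (f a) (g a) := comp_lk0.comp (hf.pair hg)

theorem comp_rs {f : α → ℕ} {g : α → Env} (hf : Computable f) (hg : Computable g) :
    Computable fun a => rs (f a) (g a) := by
  have u : ∀ {f : α → ℕ}, Computable f → Computable fun a => (f a).unpair.1 := fun h =>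
    Computable.fst.comp (Computable.unpair.comp h)
  have w : ∀ {f : α → ℕ}, Computable f → Computable fun a => (f a).unpair.2 := fun h =>
    Computable.snd.comp (Computable.unpair.comp h)
  exact comp_pair (u hf) (comp_pair (comp_lk hg (u (w hf)))
    (comp_pair (comp_lk hg (u (w (w hf)))) (comp_lk hg (w (w (w hf))))))

theorem comp_l0 : Computable fun _ : α => ([] : List ℕ) := Computable.const _

theorem comp_l1 {f : α → ℕ} (hf : Computable f) : Computable fun a => [f a] :=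
  Computable.list_cons.comp hf comp_l0

theorem comp_l2 {f g : α → ℕ} (hf : Computable f) (hg : Computable g) :
    Computable fun a => [f a, g a] := Computable.list_cons.comp hf (comp_l1 hg)

theorem comp_l3 {f g h : α → ℕ} (hf : Computable f) (hg : Computable g) (hh : Computable h) :
    Computable fun a => [f a, g a, h a] := Computable.list_cons.comp hf (comp_l2 hg hh)

end comp

/-- forbidden information, as a disjunction -/
theorem forb_iff (Ax : ℕ → Prop) (q : (ℕ × ℕ) × Info) : Forb Ax q.1 q.2 ↔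
    (∃ t : (ℕ × ℕ) × Env, (([fct (cNand t.1.1 t.1.2) t.2, fct t.1.1 t.2, fct t.1.2 t.2], []) : Info)
      = q.2) ∨
    (∃ t : (ℕ × ℕ) × Env, (([], [fct (cNand t.1.1 t.1.2) t.2, fct t.1.1 t.2]) : Info) = q.2) ∨
    (∃ t : (ℕ × ℕ) × Env, (([], [fct (cNand t.1.1 t.1.2) t.2, fct t.1.2 t.2]) : Info) = q.2) ∨
    (∃ t : (ℕ × ℕ) × (ℕ × Env), (([fct (cAll t.1.2 t.1.1) t.2.2],
      [fct t.1.1 (t.2.2.set t.1.2 t.2.1)]) : Info) = q.2) ∨
    (∃ t : (ℕ × ℕ) × Env, (([fct t.1.1 (t.2.set t.1.2 (hk t.1.1 t.1.2 t.2))],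
      [fct (cAll t.1.2 t.1.1) t.2]) : Info) = q.2) ∨
    (∃ t : (ℕ × ℕ) × (Env × Env), rs t.1.1 t.2.1 = rs t.1.2 t.2.2 ∧
      (([fct (cAt t.1.1) t.2.1], [fct (cAt t.1.2) t.2.2]) : Info) = q.2) ∨
    (∃ t : ℕ × Env, Ax t.1 ∧ (([], [fct t.1 t.2]) : Info) = q.2) ∨
    ((([], [fct (cAt (cd 3 0 0 0)) ([], 0)]) : Info) = q.2) ∨
    (∃ j : ℕ, (([], [fct cSucc ([(0, 2 * j), (1, 2 * j + 2)], 0)]) : Info) = q.2) ∨
    ((([fct q.1.2 ([], 2 * q.1.1)], []) : Info) = q.2) := by
  obtain ⟨a, c⟩ := q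
  show Forb Ax a c ↔ (∃ t : (ℕ × ℕ) × Env, (([fct (cNand t.1.1 t.1.2) t.2, fct t.1.1 t.2, fct t.1.2 t.2], []) : Info)
      = c) ∨
    (∃ t : (ℕ × ℕ) × Env, (([], [fct (cNand t.1.1 t.1.2) t.2, fct t.1.1 t.2]) : Info) = c) ∨
    (∃ t : (ℕ × ℕ) × Env, (([], [fct (cNand t.1.1 t.1.2) t.2, fct t.1.2 t.2]) : Info) = c) ∨
    (∃ t : (ℕ × ℕ) × (ℕ × Env), (([fct (cAll t.1.2 t.1.1) t.2.2],
      [fct t.1.1 (t.2.2.set t.1.2 t.2.1)]) : Info) = c) ∨
    (∃ t : (ℕ × ℕ) × Env, (([fct t.1.1 (t.2.set t.1.2 (hk t.1.1 t.1.2 t.2))],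
      [fct (cAll t.1.2 t.1.1) t.2]) : Info) = c) ∨
    (∃ t : (ℕ × ℕ) × (Env × Env), rs t.1.1 t.2.1 = rs t.1.2 t.2.2 ∧
      (([fct (cAt t.1.1) t.2.1], [fct (cAt t.1.2) t.2.2]) : Info) = c) ∨
    (∃ t : ℕ × Env, Ax t.1 ∧ (([], [fct t.1 t.2]) : Info) = c) ∨
    ((([], [fct (cAt (cd 3 0 0 0)) ([], 0)]) : Info) = c) ∨
    (∃ j : ℕ, (([], [fct cSucc ([(0, 2 * j), (1, 2 * j + 2)], 0)]) : Info) = c) ∨
    ((([fct a.2 ([], 2 * a.1)], []) : Info) = c)
  constructor
  · intro h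
    cases h with
    | nand1 c d E => exact Or.inl ⟨((c, d), E), rfl⟩
    | nand2 c d E => exact Or.inr (Or.inl ⟨((c, d), E), rfl⟩)
    | nand3 c d E => exact Or.inr (Or.inr (Or.inl ⟨((c, d), E), rfl⟩))
    | all1 c v j E => exact Or.inr (Or.inr (Or.inr (Or.inl ⟨((c, v), (j, E)), rfl⟩)))
    | all2 c v E => exact Or.inr (Or.inr (Or.inr (Or.inr (Or.inl ⟨((c, v), E), rfl⟩))))
    | atom p p' E E' h =>
      exact Or.inr (Or.inr (Or.inr (Or.inr (Or.inr (Or.inl ⟨((p, p'), (E, E')), h, rfl⟩)))))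
    | ax c E h =>
      exact Or.inr (Or.inr (Or.inr (Or.inr (Or.inr (Or.inr (Or.inl ⟨(c, E), h, rfl⟩))))))
    | zero => exact Or.inr (Or.inr (Or.inr (Or.inr (Or.inr (Or.inr (Or.inr (Or.inl rfl)))))))
    | succ j =>
      exact Or.inr (Or.inr (Or.inr (Or.inr (Or.inr (Or.inr (Or.inr (Or.inr (Or.inl ⟨j, rfl⟩))))))))
    | goal => exact Or.inr (Or.inr (Or.inr (Or.inr (Or.inr (Or.inr (Or.inr (Or.inr (Or.inr rfl))))))))
  · rintro (⟨t, h⟩ | ⟨t, h⟩ | ⟨t, h⟩ | ⟨t, h⟩ | ⟨t, h⟩ | ⟨t, h1, h⟩ | ⟨t, h1, h⟩ | h | ⟨j, h⟩ | h)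
    · obtain rfl : _ = c := h
      exact Forb.nand1 _ _ _
    · obtain rfl : _ = c := h
      exact Forb.nand2 _ _ _
    · obtain rfl : _ = c := h
      exact Forb.nand3 _ _ _
    · obtain rfl : _ = c := h
      exact Forb.all1 _ _ _ _
    · obtain rfl : _ = c := h
      exact Forb.all2 _ _ _
    · obtain rfl : _ = c := h
      exact Forb.atom _ _ _ _ h1
    · obtain rfl : _ = c := h
      exact Forb.ax _ _ h1
    · obtain rfl : _ = c := h
      exact Forb.zero
    · obtain rfl : _ = c := h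
      exact Forb.succ _
    · obtain rfl : _ = c := h
      exact Forb.goal

theorem forb_re (Ax : ℕ → Prop) (hAx : REPred Ax) :
    REPred fun q : (ℕ × ℕ) × Info => Forb Ax q.1 q.2 := by
  refine REPred.of_eq ?_ fun q => (forb_iff Ax q).symm
  refine RE.or ?_ (RE.or ?_ (RE.or ?_ (RE.or ?_ (RE.or ?_ (RE.or ?_ (RE.or ?_ (RE.or ?_
    (RE.or ?_ ?_))))))))
  · refine RE.ex (p := fun (q : (ℕ × ℕ) × Info) (t : (ℕ × ℕ) × Env) =>
      (([fct (cNand t.1.1 t.1.2) t.2, fct t.1.1 t.2, fct t.1.2 t.2], []) : Info) = q.2) ?_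
    have h1 : Computable fun z : ((ℕ × ℕ) × Info) × ((ℕ × ℕ) × Env) => z.2.1.1 := by fun_prop
    have h2 : Computable fun z : ((ℕ × ℕ) × Info) × ((ℕ × ℕ) × Env) => z.2.1.2 := by fun_prop
    have h3 : Computable fun z : ((ℕ × ℕ) × Info) × ((ℕ × ℕ) × Env) => z.2.2 := by fun_prop
    exact RE.eq ((comp_l3 (comp_fct (comp_cNand h1 h2) h3) (comp_fct h1 h3) (comp_fct h2 h3)).pair
      comp_l0) (Computable.snd.comp Computable.fst)
  · refine RE.ex (p := fun (q : (ℕ × ℕ) × Info) (t : (ℕ × ℕ) × Env) =>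
      (([], [fct (cNand t.1.1 t.1.2) t.2, fct t.1.1 t.2]) : Info) = q.2) ?_
    have h1 : Computable fun z : ((ℕ × ℕ) × Info) × ((ℕ × ℕ) × Env) => z.2.1.1 := by fun_prop
    have h2 : Computable fun z : ((ℕ × ℕ) × Info) × ((ℕ × ℕ) × Env) => z.2.1.2 := by fun_prop
    have h3 : Computable fun z : ((ℕ × ℕ) × Info) × ((ℕ × ℕ) × Env) => z.2.2 := by fun_prop
    exact RE.eq (comp_l0.pair (comp_l2 (comp_fct (comp_cNand h1 h2) h3) (comp_fct h1 h3)))
      (Computable.snd.comp Computable.fst)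
  · refine RE.ex (p := fun (q : (ℕ × ℕ) × Info) (t : (ℕ × ℕ) × Env) =>
      (([], [fct (cNand t.1.1 t.1.2) t.2, fct t.1.2 t.2]) : Info) = q.2) ?_
    have h1 : Computable fun z : ((ℕ × ℕ) × Info) × ((ℕ × ℕ) × Env) => z.2.1.1 := by fun_prop
    have h2 : Computable fun z : ((ℕ × ℕ) × Info) × ((ℕ × ℕ) × Env) => z.2.1.2 := by fun_prop
    have h3 : Computable fun z : ((ℕ × ℕ) × Info) × ((ℕ × ℕ) × Env) => z.2.2 := by fun_prop
    exact RE.eq (comp_l0.pair (comp_l2 (comp_fct (comp_cNand h1 h2) h3) (comp_fct h2 h3)))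
      (Computable.snd.comp Computable.fst)
  · refine RE.ex (p := fun (q : (ℕ × ℕ) × Info) (t : (ℕ × ℕ) × (ℕ × Env)) =>
      (([fct (cAll t.1.2 t.1.1) t.2.2], [fct t.1.1 (t.2.2.set t.1.2 t.2.1)]) : Info) = q.2) ?_
    have h1 : Computable fun z : ((ℕ × ℕ) × Info) × ((ℕ × ℕ) × (ℕ × Env)) => z.2.1.1 := by fun_prop
    have h2 : Computable fun z : ((ℕ × ℕ) × Info) × ((ℕ × ℕ) × (ℕ × Env)) => z.2.1.2 := by fun_prop
    have h3 : Computable fun z : ((ℕ × ℕ) × Info) × ((ℕ × ℕ) × (ℕ × Env)) => z.2.2.1 := by fun_prop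
    have h4 : Computable fun z : ((ℕ × ℕ) × Info) × ((ℕ × ℕ) × (ℕ × Env)) => z.2.2.2 := by fun_prop
    exact RE.eq ((comp_l1 (comp_fct (comp_cAll h2 h1) h4)).pair
      (comp_l1 (comp_fct h1 (comp_set h4 h2 h3)))) (Computable.snd.comp Computable.fst)
  · refine RE.ex (p := fun (q : (ℕ × ℕ) × Info) (t : (ℕ × ℕ) × Env) =>
      (([fct t.1.1 (t.2.set t.1.2 (hk t.1.1 t.1.2 t.2))],
      [fct (cAll t.1.2 t.1.1) t.2]) : Info) = q.2) ?_
    have h1 : Computable fun z : ((ℕ × ℕ) × Info) × ((ℕ × ℕ) × Env) => z.2.1.1 := by fun_prop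
    have h2 : Computable fun z : ((ℕ × ℕ) × Info) × ((ℕ × ℕ) × Env) => z.2.1.2 := by fun_prop
    have h3 : Computable fun z : ((ℕ × ℕ) × Info) × ((ℕ × ℕ) × Env) => z.2.2 := by fun_prop
    exact RE.eq ((comp_l1 (comp_fct h1 (comp_set h3 h2 (comp_hk h1 h2 h3)))).pair
      (comp_l1 (comp_fct (comp_cAll h2 h1) h3))) (Computable.snd.comp Computable.fst)
  · refine RE.ex (p := fun (q : (ℕ × ℕ) × Info) (t : (ℕ × ℕ) × (Env × Env)) =>
      rs t.1.1 t.2.1 = rs t.1.2 t.2.2 ∧
      (([fct (cAt t.1.1) t.2.1], [fct (cAt t.1.2) t.2.2]) : Info) = q.2) ?_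
    have h1 : Computable fun z : ((ℕ × ℕ) × Info) × ((ℕ × ℕ) × (Env × Env)) => z.2.1.1 := by
      fun_prop
    have h2 : Computable fun z : ((ℕ × ℕ) × Info) × ((ℕ × ℕ) × (Env × Env)) => z.2.1.2 := by
      fun_prop
    have h3 : Computable fun z : ((ℕ × ℕ) × Info) × ((ℕ × ℕ) × (Env × Env)) => z.2.2.1 := by
      fun_prop
    have h4 : Computable fun z : ((ℕ × ℕ) × Info) × ((ℕ × ℕ) × (Env × Env)) => z.2.2.2 := by
      fun_prop
    exact RE.and (RE.eq (comp_rs h1 h3) (comp_rs h2 h4))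
      (RE.eq ((comp_l1 (comp_fct (comp_cAt h1) h3)).pair (comp_l1 (comp_fct (comp_cAt h2) h4)))
        (Computable.snd.comp Computable.fst))
  · refine RE.ex (p := fun (q : (ℕ × ℕ) × Info) (t : ℕ × Env) =>
      Ax t.1 ∧ (([], [fct t.1 t.2]) : Info) = q.2) ?_
    have h1 : Computable fun z : ((ℕ × ℕ) × Info) × (ℕ × Env) => z.2.1 := by fun_prop
    have h2 : Computable fun z : ((ℕ × ℕ) × Info) × (ℕ × Env) => z.2.2 := by fun_prop
    exact RE.and (RE.comp hAx h1)
      (RE.eq (comp_l0.pair (comp_l1 (comp_fct h1 h2))) (Computable.snd.comp Computable.fst))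
  · exact RE.eq (Computable.const _) Computable.snd
  · refine RE.ex (p := fun (q : (ℕ × ℕ) × Info) (j : ℕ) =>
      (([], [fct cSucc ([(0, 2 * j), (1, 2 * j + 2)], 0)]) : Info) = q.2) ?_
    have h1 : Computable fun z : ((ℕ × ℕ) × Info) × ℕ => 2 * z.2 :=
      comp_mul (Computable.const 2) Computable.snd
    have h2 : Computable fun z : ((ℕ × ℕ) × Info) × ℕ => 2 * z.2 + 2 :=
      comp_add h1 (Computable.const 2)
    have h3 : Computable fun z : ((ℕ × ℕ) × Info) × ℕ =>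
        (([(0, 2 * z.2), (1, 2 * z.2 + 2)], 0) : Env) :=
      (Computable.list_cons.comp ((Computable.const 0).pair h1)
        (Computable.list_cons.comp ((Computable.const 1).pair h2) (Computable.const _))).pair
        (Computable.const 0)
    exact RE.eq (comp_l0.pair (comp_l1 (comp_fct (Computable.const _) h3)))
      (Computable.snd.comp Computable.fst)
  · have h1 : Computable fun q : (ℕ × ℕ) × Info => (([], 2 * q.1.1) : Env) :=
      (Computable.const _).pair (comp_mul (Computable.const 2)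
        (Computable.fst.comp Computable.fst))
    exact RE.eq ((comp_l1 (comp_fct (Computable.snd.comp Computable.fst) h1)).pair comp_l0)
      Computable.snd

theorem task (h1 : S_CAN) (h2 : S_MZ) (h3 : S_ZM) : S_RE := by
  obtain ⟨Ax, hAx, hval, hmod⟩ := h3
  refine REPred.of_eq (h1 (Forb Ax) (forb_re Ax hAx)) fun q => ?_
  constructor
  · intro h M _ hM
    by_contra hn
    exact h (h2 Ax hval q M hM hn)
  · rintro h ⟨Z, hZ⟩
    obtain ⟨M, _, hM, hn⟩ := hmod q Z hZ
    exact hn (h M hM)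

end Pool.Agent.W930.SFD.REn
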