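import Pool.Agent.W921.SF.Stm
import Pool.Agent.Helper227.EN.Alg
import Pool.Agent.Helper227.ENJ.P_dfn_all
import Pool.Agent.Helper227.ENJ.P_dfn_subst
import Pool.Agent.H623R3.JC.P_IND

/-!
A set without forbidden information gives a model of PA (the axioms of PA are added to the axioms
of the first part).
-/

set_option autoImplicit false

open FirstOrder FirstOrder.Language Pool.Agent.Helper227.EN

namespace Pool.Agent.W930.SFD.ZMB

open Pool.Agent.W921.SF
open Pool.Agent.Helper578.JD Pool.Agent.Helper578.JD.Oracle Pool.Agent.Helper578.JD.Defs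

/-- `x + 0 = y ↔ x = y` -/
def HZ (M : Type) [LA.Structure M] : Prop :=
  ∀ x z y : M, z = Structure.funMap (L := LA) AF.zero ![] →
    (Structure.funMap (L := LA) AF.add ![x, z] = y ↔ x = y)

/-- The truth of a code only depends on the variables `≤ c`. -/
theorem sup_dep : S_SUP := by
  intro c
  induction c using Nat.strong_induction_on with
  | _ c ih =>
    intro M _ x y h
    unfold Sat
    by_cases h0 : c.unpair.1 = 0
    · rw [dif_pos h0, dif_pos h0]
      rw [E_agree_Dg y x (c + 1) (fun i hi => h i (Nat.lt_succ_iff.1 hi)) c.unpair.2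
        (Nat.lt_succ_of_le (Nat.unpair_right_le c))]
    · rw [dif_neg h0, dif_neg h0]
      have h1 := unpair_snd_lt h0
      by_cases h2 : c.unpair.1 = 1
      · rw [if_pos h2, if_pos h2]
        have h3 : c.unpair.2.unpair.1 < c := lt_of_le_of_lt (Nat.unpair_left_le _) h1
        have h4 : c.unpair.2.unpair.2 < c := lt_of_le_of_lt (Nat.unpair_right_le _) h1
        rw [ih _ h3 M x y fun i hi => h i (by omega), ih _ h4 M x y fun i hi => h i (by omega)]
      · rw [if_neg h2, if_neg h2]
        refine forall_congr' fun z => ih _ h1 M _ _ fun i hi => ?_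
        by_cases h5 : i = c.unpair.1 - 2
        · subst h5; rw [Function.update_self, Function.update_self]
        · rw [Function.update_of_ne h5, Function.update_of_ne h5]
          exact h i (by omega)

theorem dfn_Dg {M : Type} [LA.Structure M] (p : ℕ) : Dfn fun x : ℕ → M => Dg x p = true := by
  have hgen : ∀ c i j l : ℕ, p = cd c i j l → Dfn fun x : ℕ → M => Dg x p = true := by
    rintro c i j l rfl
    by_cases h0 : c = 0
    · subst h0
      refine ⟨(tadd (Term.var i) (Term.var j)).equal (Term.var l), fun x => ?_⟩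
      rw [Formula.realize_equal, ea_tadd]
      simp [Dg, cd]
    by_cases h1 : c = 1
    · subst h1
      refine ⟨(tmul (Term.var i) (Term.var j)).equal (Term.var l), fun x => ?_⟩
      rw [Formula.realize_equal, ea_tmul]
      simp [Dg, cd]
    by_cases h2 : c = 2
    · subst h2
      refine ⟨Relations.formula₂ (L := LA) AR.lt (Term.var i) (Term.var j), fun x => ?_⟩
      rw [Formula.realize_rel₂ (L := LA)]
      simp [Dg, cd]
    by_cases h3 : c = 3
    · subst h3
      refine ⟨(t0 : LA.Term ℕ).equal (Term.var i), fun x => ?_⟩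
      rw [Formula.realize_equal, ea_t0]
      simp [Dg, cd]
    by_cases h4 : c = 4
    · subst h4
      refine ⟨(t1 : LA.Term ℕ).equal (Term.var i), fun x => ?_⟩
      rw [Formula.realize_equal, ea_t1]
      simp [Dg, cd]
    obtain ⟨φ, hφ⟩ := (dfn_bool (M := M)).1 False
    refine ⟨φ, fun x => (hφ x).trans ?_⟩
    simp [Dg, cd, h0, h1, h2, h3, h4]
  exact hgen p.unpair.1 p.unpair.2.unpair.1 p.unpair.2.unpair.2.unpair.1 p.unpair.2.unpair.2.unpair.2
    (by unfold cd; rw [Nat.pair_unpair, Nat.pair_unpair, Nat.pair_unpair])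

/-- Truth of a code is definable. -/
theorem dfn_sat {M : Type} [LA.Structure M] (c : ℕ) : Dfn fun x : ℕ → M => Sat c x := by
  induction c using Nat.strong_induction_on with
  | _ c ih =>
    by_cases h0 : c.unpair.1 = 0
    · obtain ⟨φ, hφ⟩ := dfn_Dg (M := M) c.unpair.2
      refine ⟨φ, fun x => (hφ x).trans ?_⟩
      beta_reduce
      conv_rhs => unfold Sat
      rw [dif_pos h0]
    · have h1 := unpair_snd_lt h0
      by_cases h2 : c.unpair.1 = 1
      · have h3 : c.unpair.2.unpair.1 < c := lt_of_le_of_lt (Nat.unpair_left_le _) h1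
        have h4 : c.unpair.2.unpair.2 < c := lt_of_le_of_lt (Nat.unpair_right_le _) h1
        obtain ⟨φ, hφ⟩ := (dfn_bool (M := M)).2.1 _ ((dfn_bool (M := M)).2.2.1 _ _ (ih _ h3) (ih _ h4))
        refine ⟨φ, fun x => (hφ x).trans ?_⟩
        beta_reduce
        conv_rhs => unfold Sat
        rw [dif_neg h0, if_pos h2]
      · obtain ⟨φ, hφ⟩ := dfn_all
          (fun (x : ℕ → M) y => Sat c.unpair.2 (Function.update x (c.unpair.1 - 2) y))
          (c.unpair.1 - 2) (fun x y v => by rw [Function.update_idem])
          (by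
            obtain ⟨ψ, hψ⟩ := ih _ h1
            refine ⟨ψ, fun x => (hψ x).trans ?_⟩
            beta_reduce
            rw [Function.update_eq_self])
        refine ⟨φ, fun x => (hφ x).trans ?_⟩
        beta_reduce
        conv_rhs => unfold Sat
        rw [dif_neg h0, if_neg h2]

/-- implication -/
def cImp (p q : ℕ) : ℕ := cNand p (cNand q q)

theorem Sat_cImp {M : Type} [LA.Structure M] (p q : ℕ) (x : ℕ → M) :
    Sat (cImp p q) x ↔ (Sat p x → Sat q x) := by
  unfold cImp
  rw [Sat_cNand, Sat_cNand]
  tauto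

/-- the induction step for `a` in the variable `v` -/
def cStep (a v : ℕ) : ℕ :=
  cAll v (cImp a (cAll (a + v + 2) (cImp (cAt (cd 4 (a + v + 2) 0 0))
    (cAll (a + v + 1) (cImp (cAt (cd 0 v (a + v + 2) (a + v + 1)))
      (cAll (a + v + 2) (cImp (cAt (cd 3 (a + v + 2) 0 0))
        (cAll v (cImp (cAt (cd 0 (a + v + 1) (a + v + 2) v)) a)))))))))

/-- induction for `a` in the variable `v` -/
def cInd (a v : ℕ) : ℕ :=
  cImp (cAll v (cImp (cAt (cd 3 v 0 0)) a)) (cImp (cStep a v) (cAll v a))

section sem
variable {M : Type} [LA.Structure M]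

theorem Dg_add (x : ℕ → M) (i j l : ℕ) : Dg x (cd 0 i j l) = true ↔
    Structure.funMap (L := LA) AF.add ![x i, x j] = x l := by simp [Dg, cd]

theorem Dg_zero (x : ℕ → M) (i j l : ℕ) : Dg x (cd 3 i j l) = true ↔
    Structure.funMap (L := LA) AF.zero ![] = x i := by simp [Dg, cd]

theorem Dg_one (x : ℕ → M) (i j l : ℕ) : Dg x (cd 4 i j l) = true ↔
    Structure.funMap (L := LA) AF.one ![] = x i := by simp [Dg, cd]

theorem Sat_cStep (hM : HZ M) (a v : ℕ) (x : ℕ → M) : Sat (cStep a v) x ↔
    ∀ y, Sat a (Function.update x v y) → Sat a (Function.update x v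
      (Structure.funMap (L := LA) AF.add ![y, Structure.funMap (L := LA) AF.one ![] ])) := by
  have hw : a + v + 2 ≠ v := by omega
  have hu : a + v + 1 ≠ v := by omega
  have huw : a + v + 1 ≠ a + v + 2 := by omega
  unfold cStep
  simp only [Sat_cAll, Sat_cImp, Sat_cAt, Dg_add, Dg_zero, Dg_one]
  have hdep : ∀ (y o s z y' : M), Sat a (Function.update (Function.update (Function.update
      (Function.update (Function.update x v y) (a + v + 2) o) (a + v + 1) s) (a + v + 2) z) v y') ↔
      Sat a (Function.update x v y') := by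
    intro y o s z y'
    refine sup_dep a M _ _ fun i hi => ?_
    by_cases hiv : i = v
    · subst hiv; rw [Function.update_self, Function.update_self]
    · rw [Function.update_of_ne hiv, Function.update_of_ne hiv, Function.update_of_ne (by omega),
        Function.update_of_ne (by omega), Function.update_of_ne (by omega),
        Function.update_of_ne hiv]
  simp only [hdep, Function.update_self, Function.update_of_ne hw.symm, Function.update_of_ne hu,
    Function.update_of_ne hu.symm, Function.update_of_ne huw, Function.update_of_ne huw.symm,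
    Function.update_of_ne hw]
  refine forall_congr' fun y => imp_congr_right fun _ => ?_
  constructor
  · intro h
    exact h _ rfl _ rfl _ rfl _ ((hM _ _ _ rfl).2 rfl)
  · rintro h o rfl s rfl z rfl y' hy'
    rw [← (hM _ _ _ rfl).1 hy']
    exact h

theorem Sat_cInd (hM : HZ M) (a v : ℕ) (x : ℕ → M) : Sat (cInd a v) x ↔
    (Sat a (Function.update x v (Structure.funMap (L := LA) AF.zero ![])) →
    (∀ y, Sat a (Function.update x v y) → Sat a (Function.update x v
      (Structure.funMap (L := LA) AF.add ![y, Structure.funMap (L := LA) AF.one ![] ]))) →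
    ∀ y, Sat a (Function.update x v y)) := by
  unfold cInd
  rw [Sat_cImp, Sat_cImp, Sat_cStep hM, Sat_cAll, Sat_cAll]
  simp only [Sat_cImp, Sat_cAt, Dg_zero, Function.update_self]
  refine imp_congr ?_ Iff.rfl
  constructor
  · intro h; exact h _ rfl
  · rintro h y rfl; exact h

end sem

theorem hz_pa {M : Type} [LA.Structure M] [Nonempty M] (h : M ⊨ PA) : HZ M := by
  have hPm : (M : Type) ⊨ PAminus := h.mono Set.subset_union_left
  obtain ⟨i1, i2, i3, i4, hc⟩ := exists_alg M hPm
  intro x z y hz
  rw [hc.zero] at hz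
  subst hz
  rw [hc.add, add_zero]

/-- The induction codes are true in all models of PA. -/
theorem cInd_true {M : Type} [LA.Structure M] (h : M ⊨ PA) (a v : ℕ) (x : ℕ → M) :
    Sat (cInd a v) x := by
  have : Nonempty M := ⟨x 0⟩
  rw [Sat_cInd (hz_pa h)]
  intro h0 hs y
  obtain ⟨n, ψ, hψ⟩ := Pool.Agent.H623R3.JC.IND_form (fun x : ℕ → M => Sat a x) (dfn_sat a) v
  have hmem : indAx ψ ∈ PA := Or.inr ⟨n, ψ, rfl⟩
  have hax : M ⊨ indAx ψ := Theory.realize_sentence_of_mem PA hmem
  have h1 := (realize_indAx ψ _ _ rfl rfl).1 hax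
    (fun i : Fin n => x i) ((hψ x _).2 h0) (fun w hw => (hψ x _).2 (hs w ((hψ x w).1 hw))) y
  exact (hψ x y).1 h1

theorem lk_set (E : Env) (v j w : ℕ) : lk (E.set v j) w = if w = v then j else lk E w := by
  unfold lk Env.set
  by_cases h : w = v
  · subst h; simp
  · rw [if_neg h]
    simp [List.lookup, beq_eq_false_iff_ne.2 h]

theorem exists_env (f : ℕ → ℕ) (k : ℕ) : ∃ E : Env, ∀ i < k, lk E i = f i := by
  induction k with
  | zero => exact ⟨([], 0), fun i hi => absurd hi (by omega)⟩
  | succ k ih =>
    obtain ⟨E, hE⟩ := ih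
    refine ⟨E.set k (f k), fun i hi => ?_⟩
    rw [lk_set]
    split_ifs with h
    · rw [h]
    · exact hE i (by omega)

theorem re_finite {s : Set ℕ} (hs : s.Finite) : REPred fun c : ℕ => c ∈ s := by
  induction s, hs using Set.Finite.induction_on with
  | empty => exact (RE.const (α := ℕ) False).of_eq fun c => by simp
  | @insert a s _ _ ih =>
    exact (RE.or (RE.eq (f := fun c : ℕ => c) (g := fun _ => a) (by fun_prop) (by fun_prop)) ih).of_eq
      fun c => by rw [Set.mem_insert_iff]

theorem comp_pair {α : Type} [Primcodable α] {f g : α → ℕ} (hf : Computable f) (hg : Computable g) :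
    Computable fun a => Nat.pair (f a) (g a) :=
  (Primrec₂.natPair.to_comp).comp hf hg

theorem comp_add {α : Type} [Primcodable α] {f g : α → ℕ} (hf : Computable f) (hg : Computable g) :
    Computable fun a => f a + g a :=
  (Primrec.nat_add.to_comp).comp hf hg

theorem comp_cImp {α : Type} [Primcodable α] {f g : α → ℕ} (hf : Computable f)
    (hg : Computable g) : Computable fun a => cImp (f a) (g a) :=
  comp_pair (Computable.const 1) (comp_pair hf
    (comp_pair (Computable.const 1) (comp_pair hg hg)))

theorem comp_cAll {α : Type} [Primcodable α] {f g : α → ℕ} (hf : Computable f)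
    (hg : Computable g) : Computable fun a => cAll (f a) (g a) :=
  comp_pair (comp_add hf (Computable.const 2)) hg

theorem comp_cAt {α : Type} [Primcodable α] (c : ℕ) {f g h : α → ℕ} (hf : Computable f)
    (hg : Computable g) (hh : Computable h) : Computable fun a => cAt (cd c (f a) (g a) (h a)) :=
  comp_pair (Computable.const 0) (comp_pair (Computable.const c) (comp_pair hf (comp_pair hg hh)))

theorem comp_cInd : Computable fun q : ℕ × ℕ => cInd q.1 q.2 := by
  have ha : Computable fun q : ℕ × ℕ => q.1 := Computable.fst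
  have hv : Computable fun q : ℕ × ℕ => q.2 := Computable.snd
  have hu : Computable fun q : ℕ × ℕ => q.1 + q.2 + 1 :=
    comp_add (comp_add ha hv) (Computable.const 1)
  have hw : Computable fun q : ℕ × ℕ => q.1 + q.2 + 2 :=
    comp_add (comp_add ha hv) (Computable.const 2)
  have h0 : Computable fun _ : ℕ × ℕ => 0 := Computable.const 0
  unfold cInd cStep
  exact comp_cImp (comp_cAll hv (comp_cImp (comp_cAt 3 hv h0 h0) ha))
    (comp_cImp (comp_cAll hv (comp_cImp ha (comp_cAll hw (comp_cImp (comp_cAt 4 hw h0 h0)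
      (comp_cAll hu (comp_cImp (comp_cAt 0 hv hw hu) (comp_cAll hw (comp_cImp (comp_cAt 3 hw h0 h0)
        (comp_cAll hv (comp_cImp (comp_cAt 0 hu hw hv) ha)))))))))) (comp_cAll hv ha))

theorem task (h1 : S_ZMA) (h2 : S_FC) : S_ZM := by
  classical
  obtain ⟨Ax0, hre, hval, hmod⟩ := h1
  -- codes of sentences
  have hsen : ∀ φ : LA.Sentence, ∃ c : ℕ, ∀ (M : Type) [LA.Structure M], HZ M →
      ∀ x : ℕ → M, Sat c x ↔ M ⊨ φ := by
    intro φ
    obtain ⟨c, hc⟩ := h2 (φ.relabel (fun a : Empty => a.elim))
    refine ⟨c, fun M _ hM x => (hc M hM x).trans ?_⟩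
    rw [Formula.realize_relabel]
    have : (x ∘ fun a : Empty => (a.elim : ℕ)) = default := Subsingleton.elim _ _
    rw [this]
    rfl
  choose code hcode using hsen
  have hfin : (PAminus : Set LA.Sentence).Finite := by
    unfold PAminus
    exact Set.toFinite _
  have hfin2 : (code '' (PAminus : Set LA.Sentence)).Finite := hfin.image code
  refine ⟨fun c => Ax0 c ∨ c ∈ code '' (PAminus : Set LA.Sentence) ∨
    ∃ q : ℕ × ℕ, cInd q.1 q.2 = c, ?_, ?_, ?_⟩
  · refine RE.or hre (RE.or (re_finite hfin2) ?_)
    refine RE.ex (p := fun (c : ℕ) (q : ℕ × ℕ) => cInd q.1 q.2 = c) ?_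
    exact RE.eq (f := fun z : ℕ × (ℕ × ℕ) => cInd z.2.1 z.2.2) (g := fun z => z.1)
      (comp_cInd.comp Computable.snd) Computable.fst
  · rintro c (hc | ⟨φ, hφ, rfl⟩ | ⟨q, rfl⟩) M _ hM x
    · exact hval c hc M hM x
    · have : Nonempty M := ⟨x 0⟩
      rw [hcode φ M (hz_pa hM)]
      have hφ' : φ ∈ PA := Or.inl hφ
      exact Theory.realize_sentence_of_mem PA hφ'
    · exact cInd_true hM q.1 q.2 x
  · intro a Z hZ
    obtain ⟨M, iM, P, hHZ, hP, hT, hnv⟩ := hmod _ (fun c hc => Or.inl hc) a Z hZ
    have hAx : ∀ c, (Ax0 c ∨ c ∈ code '' (PAminus : Set LA.Sentence) ∨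
        ∃ q : ℕ × ℕ, cInd q.1 q.2 = c) → ∀ x : ℕ → M, Sat c x := by
      intro c hc x
      choose n hn using fun i => hP (x i)
      obtain ⟨E, hE⟩ := exists_env n (c + 1)
      have h3 : fct c E ∈ Z := by
        by_contra h4
        exact hZ _ (Forb.ax c E hc) ⟨fun z hz => by simp at hz, fun z hz => by
          simp only [List.mem_singleton] at hz
          rw [hz]; exact h4⟩
      have h4 := (hT c E).2 h3
      refine (sup_dep c M _ _ fun i hi => ?_).1 h4
      rw [hE i (by omega), hn]
    refine ⟨M, iM, ?_, ?_⟩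
    · rw [Theory.model_iff]
      have x0 : ℕ → M := fun i => nv M i
      rintro φ (hφ | ⟨n, φ', rfl⟩)
      · exact (hcode φ M hHZ x0).1 (hAx _ (Or.inr (Or.inl ⟨φ, hφ, rfl⟩)) x0)
      · rw [realize_indAx φ' _ _ rfl rfl]
        intro y
        obtain ⟨ψ, hψ⟩ : ∃ ψ : LA.Formula ℕ, ∀ x : ℕ → M, ψ.Realize x ↔
            φ'.Realize (Sum.elim default (fun i : Fin n => x (i + 1))) (fun _ => x 0) := by
          refine ⟨φ'.toFormula.relabel
            (Sum.elim (Sum.elim (fun a : Empty => a.elim) (fun i : Fin n => (i : ℕ) + 1))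
              (fun _ : Fin 1 => 0)), fun x => ?_⟩
          rw [Formula.realize_relabel, BoundedFormula.realize_toFormula]
          have e1 : ((x ∘ Sum.elim (Sum.elim (fun a : Empty => (a.elim : ℕ))
              (fun i : Fin n => (i : ℕ) + 1)) (fun _ : Fin 1 => 0)) ∘ Sum.inl) =
              Sum.elim default (fun i : Fin n => x (i + 1)) := by
            funext b
            rcases b with b | b
            · exact b.elim
            · rfl
          have e2 : ((x ∘ Sum.elim (Sum.elim (fun a : Empty => (a.elim : ℕ))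
              (fun i : Fin n => (i : ℕ) + 1)) (fun _ : Fin 1 => 0)) ∘ Sum.inr) =
              fun _ => x 0 := by
            funext b
            rfl
          rw [e1, e2]
        obtain ⟨c, hc⟩ := h2 ψ
        let x : ℕ → M := fun i => if h : i - 1 < n then y ⟨i - 1, h⟩ else x0 0
        have hx : ∀ t : M, Sat c (Function.update x 0 t) ↔
            φ'.Realize (Sum.elim default y) (fun _ => t) := by
          intro t
          rw [hc M hHZ, hψ]
          have e1 : (fun i : Fin n => Function.update x 0 t (i + 1)) = y := by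
            funext i
            rw [Function.update_of_ne (by omega)]
            show (if h : (i : ℕ) + 1 - 1 < n then y ⟨(i : ℕ) + 1 - 1, h⟩ else x0 0) = y i
            rw [dif_pos (by have := i.2; omega)]
            rfl
          rw [e1, Function.update_self]
        have h5 := hAx (cInd c 0) (Or.inr (Or.inr ⟨(c, 0), rfl⟩)) x
        rw [Sat_cInd hHZ] at h5
        simp only [hx] at h5
        exact h5
    · intro h6
      have h7 : fct a.2 ([], 2 * a.1) ∈ Z := by
        refine (hT a.2 ([], 2 * a.1)).1 ?_
        have e : (fun v => P (lk ([], 2 * a.1) v)) = fun _ => nv M a.1 := by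
          funext v
          rw [hnv]
          rfl
        rw [e]
        exact h6
      exact hZ _ Forb.goal ⟨fun z hz => by
        simp only [List.mem_singleton] at hz
        rw [hz]; exact h7, fun z hz => by simp at hz⟩

end Pool.Agent.W930.SFD.ZMB
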