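import Pool.Agent.W921.SF.Stm

/-!
Every formula in the language of arithmetic has a code, uniformly in all structures with `x + 0 = x`.
-/

set_option autoImplicit false

open FirstOrder FirstOrder.Language Pool.Agent.Helper227.EN

namespace Pool.Agent.W930.SFD

open Pool.Agent.W921.SF

/-- `x + 0 = y ↔ x = y` -/
def HZ (M : Type) [LA.Structure M] : Prop :=
  ∀ x z y : M, z = Structure.funMap (L := LA) AF.zero ![] →
    (Structure.funMap (L := LA) AF.add ![x, z] = y ↔ x = y)

/-- the uniform predicate `R` has a code -/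
def Cod (R : ∀ (M : Type) [LA.Structure M], (ℕ → M) → Prop) : Prop :=
  ∃ c : ℕ, ∀ (M : Type) [LA.Structure M], HZ M → ∀ x : ℕ → M, Sat c x ↔ R M x

theorem Cod.congr {R S : ∀ (M : Type) [LA.Structure M], (ℕ → M) → Prop} (h : Cod R)
    (hRS : ∀ (M : Type) [LA.Structure M], HZ M → ∀ x : ℕ → M, R M x ↔ S M x) : Cod S := by
  obtain ⟨c, hc⟩ := h
  exact ⟨c, fun M _ hM x => (hc M hM x).trans (hRS M hM x)⟩

theorem Cod.nand {R S : ∀ (M : Type) [LA.Structure M], (ℕ → M) → Prop} (h : Cod R) (h' : Cod S) :
    Cod fun M _ x => ¬ (R M x ∧ S M x) := by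
  obtain ⟨c, hc⟩ := h
  obtain ⟨d, hd⟩ := h'
  refine ⟨cNand c d, fun M _ hM x => ?_⟩
  rw [Sat_cNand, hc M hM x, hd M hM x]

theorem Cod.not {R : ∀ (M : Type) [LA.Structure M], (ℕ → M) → Prop} (h : Cod R) :
    Cod fun M _ x => ¬ R M x :=
  (h.nand h).congr fun M _ _ x => by simp

theorem Cod.and {R S : ∀ (M : Type) [LA.Structure M], (ℕ → M) → Prop} (h : Cod R) (h' : Cod S) :
    Cod fun M _ x => R M x ∧ S M x :=
  (h.nand h').not.congr fun M _ _ x => by simp

theorem Cod.imp {R S : ∀ (M : Type) [LA.Structure M], (ℕ → M) → Prop} (h : Cod R) (h' : Cod S) :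
    Cod fun M _ x => R M x → S M x :=
  (h.nand h'.not).congr fun M _ _ x => by simp

theorem Cod.all {R : ∀ (M : Type) [LA.Structure M], (ℕ → M) → Prop} (v : ℕ) (h : Cod R) :
    Cod fun M _ x => ∀ y : M, R M (Function.update x v y) := by
  obtain ⟨c, hc⟩ := h
  refine ⟨cAll v c, fun M _ hM x => ?_⟩
  rw [Sat_cAll]
  exact forall_congr' fun y => hc M hM _

theorem Cod.ex {R : ∀ (M : Type) [LA.Structure M], (ℕ → M) → Prop} (v : ℕ) (h : Cod R) :
    Cod fun M _ x => ∃ y : M, R M (Function.update x v y) :=
  (Cod.all v h.not).not.congr fun M _ _ x => by simp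

theorem cod_add (i j l : ℕ) :
    Cod fun M _ x => Structure.funMap (L := LA) AF.add ![x i, x j] = x l :=
  ⟨cAt (cd 0 i j l), fun M _ _ x => by rw [Sat_cAt]; simp [Dg, cd]⟩

theorem cod_mul (i j l : ℕ) :
    Cod fun M _ x => Structure.funMap (L := LA) AF.mul ![x i, x j] = x l :=
  ⟨cAt (cd 1 i j l), fun M _ _ x => by rw [Sat_cAt]; simp [Dg, cd]⟩

theorem cod_lt (i j : ℕ) :
    Cod fun M _ x => Structure.RelMap (L := LA) AR.lt ![x i, x j] :=
  ⟨cAt (cd 2 i j 0), fun M _ _ x => by rw [Sat_cAt]; simp [Dg, cd]⟩

theorem cod_zero (i : ℕ) :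
    Cod fun M _ x => Structure.funMap (L := LA) AF.zero ![] = x i :=
  ⟨cAt (cd 3 i 0 0), fun M _ _ x => by rw [Sat_cAt]; simp [Dg, cd]⟩

theorem cod_one (i : ℕ) :
    Cod fun M _ x => Structure.funMap (L := LA) AF.one ![] = x i :=
  ⟨cAt (cd 4 i 0 0), fun M _ _ x => by rw [Sat_cAt]; simp [Dg, cd]⟩

theorem cod_eq (i j : ℕ) : Cod fun M _ x => x i = x j := by
  have hi : i < i + j + 1 := by omega
  have hj : j < i + j + 1 := by omega
  refine (((cod_zero (i + j + 1)).and (cod_add i (i + j + 1) j)).ex (i + j + 1)).congr ?_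
  intro M _ hM x
  constructor
  · rintro ⟨y, hy, hy2⟩
    rw [Function.update_self] at hy hy2
    rw [Function.update_of_ne (ne_of_lt hi), Function.update_of_ne (ne_of_lt hj)] at hy2
    exact (hM _ _ _ hy.symm).1 hy2
  · intro h
    refine ⟨Structure.funMap (L := LA) AF.zero ![], ?_, ?_⟩
    · rw [Function.update_self]
    · rw [Function.update_self, Function.update_of_ne (ne_of_lt hi),
        Function.update_of_ne (ne_of_lt hj)]
      exact (hM _ _ _ rfl).2 h

theorem cod_true : Cod fun _ _ _ => True :=
  (cod_eq 0 0).congr fun M _ _ x => by simp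

theorem cod_term {α : Type} (ρ : α → ℕ) (t : LA.Term α) : ∀ s u : ℕ, (∀ a, ρ a < s) → u < s →
    Cod fun M _ x => x u = t.realize fun a => x (ρ a) := by
  induction t with
  | var a =>
    intro s u hs hu
    exact cod_eq u (ρ a)
  | @func k f ts ih =>
    intro s u hs hu
    have hs2 : ∀ a, ρ a < s + 2 := fun a => (hs a).trans (by omega)
    have bin : ∀ (P : ∀ (M : Type) [LA.Structure M], M → M → M → Prop) (t t' : LA.Term α),
        (Cod fun M _ x => P M (x s) (x (s + 1)) (x u)) →
        (Cod fun M _ x => x s = t.realize fun a => x (ρ a)) →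
        (Cod fun M _ x => x (s + 1) = t'.realize fun a => x (ρ a)) →
        Cod fun M _ x => P M (t.realize fun a => x (ρ a)) (t'.realize fun a => x (ρ a)) (x u) := by
      intro P t t' h1 h2 h3
      refine ((((h2.and h3).and h1).ex s).ex (s + 1)).congr ?_
      intro M _ hM x
      have e1 : ∀ y y' : M, (fun a => Function.update (Function.update x (s + 1) y') s y (ρ a)) =
          fun a => x (ρ a) := by
        intro y y'
        funext a
        have := hs a
        rw [Function.update_of_ne (by omega), Function.update_of_ne (by omega)]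
      have e2 : ∀ y y' : M, Function.update (Function.update x (s + 1) y') s y s = y := by
        intro y y'
        rw [Function.update_self]
      have e3 : ∀ y y' : M, Function.update (Function.update x (s + 1) y') s y (s + 1) = y' := by
        intro y y'
        rw [Function.update_of_ne (by omega), Function.update_self]
      have e4 : ∀ y y' : M, Function.update (Function.update x (s + 1) y') s y u = x u := by
        intro y y'
        rw [Function.update_of_ne (by omega), Function.update_of_ne (by omega)]
      simp only [e1, e2, e3, e4]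
      constructor
      · rintro ⟨y', y, ⟨rfl, rfl⟩, h⟩
        exact h
      · intro h
        exact ⟨_, _, ⟨rfl, rfl⟩, h⟩
    cases f with
    | zero =>
      refine (cod_zero u).congr fun M _ _ x => ?_
      rw [Term.realize]
      have : (fun i => (ts i).realize fun a => x (ρ a)) = ![] := Subsingleton.elim _ _
      rw [this]
      exact eq_comm
    | one =>
      refine (cod_one u).congr fun M _ _ x => ?_
      rw [Term.realize]
      have : (fun i => (ts i).realize fun a => x (ρ a)) = ![] := Subsingleton.elim _ _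
      rw [this]
      exact eq_comm
    | add =>
      refine (bin (fun M _ y y' z => Structure.funMap (L := LA) AF.add ![y, y'] = z) (ts 0) (ts 1)
        (cod_add _ _ _) (ih 0 (s + 2) s hs2 (by omega)) (ih 1 (s + 2) (s + 1) hs2 (by omega))).congr
        fun M _ _ x => ?_
      rw [Term.realize]
      have : (fun i => (ts i).realize fun a => x (ρ a)) =
          ![(ts 0).realize fun a => x (ρ a), (ts 1).realize fun a => x (ρ a)] := by
        funext i; fin_cases i <;> rfl
      rw [this]
      exact eq_comm
    | mul =>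
      refine (bin (fun M _ y y' z => Structure.funMap (L := LA) AF.mul ![y, y'] = z) (ts 0) (ts 1)
        (cod_mul _ _ _) (ih 0 (s + 2) s hs2 (by omega)) (ih 1 (s + 2) (s + 1) hs2 (by omega))).congr
        fun M _ _ x => ?_
      rw [Term.realize]
      have : (fun i => (ts i).realize fun a => x (ρ a)) =
          ![(ts 0).realize fun a => x (ρ a), (ts 1).realize fun a => x (ρ a)] := by
        funext i; fin_cases i <;> rfl
      rw [this]
      exact eq_comm

theorem cod_two {α : Type} (ρ : α → ℕ) (s : ℕ) (hs : ∀ a, ρ a < s)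
    (P : ∀ (M : Type) [LA.Structure M], M → M → Prop)
    (hP : Cod fun M _ x => P M (x s) (x (s + 1))) (t t' : LA.Term α) :
    Cod fun M _ x => P M (t.realize fun a => x (ρ a)) (t'.realize fun a => x (ρ a)) := by
  have hs2 : ∀ a, ρ a < s + 2 := fun a => (hs a).trans (by omega)
  refine ((((((cod_term ρ t (s + 2) s hs2 (by omega)).and
    (cod_term ρ t' (s + 2) (s + 1) hs2 (by omega)))).and hP).ex s).ex (s + 1)).congr ?_
  intro M _ hM x
  have e1 : ∀ y y' : M, (fun a => Function.update (Function.update x (s + 1) y') s y (ρ a)) =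
      fun a => x (ρ a) := by
    intro y y'
    funext a
    have := hs a
    rw [Function.update_of_ne (by omega), Function.update_of_ne (by omega)]
  have e2 : ∀ y y' : M, Function.update (Function.update x (s + 1) y') s y s = y := by
    intro y y'
    rw [Function.update_self]
  have e3 : ∀ y y' : M, Function.update (Function.update x (s + 1) y') s y (s + 1) = y' := by
    intro y y'
    rw [Function.update_of_ne (by omega), Function.update_self]
  simp only [e1, e2, e3]
  constructor
  · rintro ⟨y', y, ⟨rfl, rfl⟩, h⟩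
    exact h
  · intro h
    exact ⟨_, _, ⟨rfl, rfl⟩, h⟩

theorem cod_fml {α : Type} (ρ : α → ℕ) (s : ℕ) (hs : ∀ a, ρ a < s) {n : ℕ}
    (φ : LA.BoundedFormula α n) :
    Cod fun M _ x => φ.Realize (fun a => x (ρ a)) fun i : Fin n => x (s + i) := by
  have hel : ∀ (n : ℕ) (M : Type) (x : ℕ → M), (Sum.elim (fun a => x (ρ a)) fun i : Fin n => x (s + i)) =
      fun a => x (Sum.elim ρ (fun i : Fin n => s + i) a) := by
    intro n M x
    funext a
    cases a <;> rfl
  have hb : ∀ (n : ℕ) (a : α ⊕ Fin n), Sum.elim ρ (fun i : Fin n => s + i) a < s + n := by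
    intro n a
    cases a with
    | inl a => exact (hs a).trans_le (by omega)
    | inr i => simp only [Sum.elim_inr]; omega
  induction φ with
  | falsum =>
    refine cod_true.not.congr fun M _ _ x => ?_
    simp [BoundedFormula.Realize]
  | @equal n t t' =>
    refine (cod_two (Sum.elim ρ (fun i : Fin n => s + i)) (s + n) (hb n) (fun M _ y y' => y = y')
      (cod_eq _ _) t t').congr fun M _ _ x => ?_
    rw [BoundedFormula.Realize, hel]
  | @rel n k R ts =>
    cases R with
    | lt =>
      refine (cod_two (Sum.elim ρ (fun i : Fin n => s + i)) (s + n) (hb n)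
        (fun M _ y y' => Structure.RelMap (L := LA) AR.lt ![y, y'])
        (cod_lt _ _) (ts 0) (ts 1)).congr fun M _ _ x => ?_
      rw [BoundedFormula.Realize, hel]
      have : (fun i => (ts i).realize fun a => x (Sum.elim ρ (fun i : Fin n => s + i) a)) =
          ![(ts 0).realize fun a => x (Sum.elim ρ (fun i : Fin n => s + i) a),
            (ts 1).realize fun a => x (Sum.elim ρ (fun i : Fin n => s + i) a)] := by
        funext i; fin_cases i <;> rfl
      rw [this]
  | imp φ ψ ihφ ihψ => exact ihφ.imp ihψ
  | @all n φ ih =>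
    refine (ih.all (s + n)).congr fun M _ _ x => ?_
    rw [BoundedFormula.realize_all]
    refine forall_congr' fun y => ?_
    have e1 : (fun a => Function.update x (s + n) y (ρ a)) = fun a => x (ρ a) := by
      funext a
      have := hs a
      rw [Function.update_of_ne (by omega)]
    have e2 : (fun i : Fin (n + 1) => Function.update x (s + n) y (s + i)) =
        (Fin.snoc (fun i : Fin n => x (s + i)) y : Fin (n + 1) → M) := by
      funext i
      refine Fin.lastCases ?_ (fun j => ?_) i
      · rw [Fin.snoc_last, Fin.val_last, Function.update_self]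
      · rw [Fin.snoc_castSucc, Fin.val_castSucc, Function.update_of_ne]
        have := j.2
        omega
    rw [e1, e2]

theorem taskFC : S_FC := by
  intro φ
  obtain ⟨s, hs⟩ : ∃ s : ℕ, ∀ i ∈ φ.freeVarFinset, i < s :=
    ⟨φ.freeVarFinset.sup id + 1, fun i hi => Nat.lt_succ_of_le (Finset.le_sup (f := id) hi)⟩
  obtain ⟨c, hc⟩ := cod_fml (fun a : φ.freeVarFinset => (a : ℕ)) s (fun a => hs a.1 a.2)
    (φ.restrictFreeVar (fun a => a))
  refine ⟨c, fun M _ hM x => (hc M hM x).trans ?_⟩
  have h1 := BoundedFormula.realize_restrictFreeVar (M := M) (φ := φ)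
    (f := (fun a => a : φ.freeVarFinset → φ.freeVarFinset)) (v := fun a => x a)
    (xs := fun i : Fin 0 => x (s + i)) x (fun _ => rfl)
  refine h1.trans ?_
  have h2 : (fun i : Fin 0 => x (s + i)) = default := Subsingleton.elim _ _
  rw [h2]
  rfl

end Pool.Agent.W930.SFD
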